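import Mathlib

/-! Points of a cube in given residue classes modulo primes. -/

set_option autoImplicit false

namespace Pool.Agent.W36.GS

open Finset

/-- the reduction of an integral point modulo `q` -/
def rd {D : ℕ} (q : ℕ) (x : Fin D → ℤ) : Fin D → ZMod q := fun j => (x j : ZMod q)

/-- the cube `[0, H) ^ D` -/
noncomputable def cube (D H : ℕ) : Finset (Fin D → ℤ) := Fintype.piFinset (fun _ => Ico (0 : ℤ) H)

theorem mem_cube {D H : ℕ} {x : Fin D → ℤ} : x ∈ cube D H ↔ ∀ j, 0 ≤ x j ∧ x j < H := by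
  unfold cube
  simp only [Fintype.mem_piFinset, mem_Ico]

theorem card_cube (D H : ℕ) : (cube D H).card = H ^ D := by
  unfold cube
  rw [Fintype.card_piFinset]
  simp

theorem prod_near : ∀ (D : ℕ) (c : Fin D → ℝ) {u : ℝ}, 1 ≤ u → (∀ j, |c j - u| ≤ 1) →
    |∏ j, c j - u ^ D| ≤ D * 2 ^ D * u ^ D / u := by
  intro D
  induction D with
  | zero => intro c u hu h; simp
  | succ D ih =>
    intro c u hu h
    rw [Fin.prod_univ_succ]
    have hu0 : 0 < u := by linarith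
    have h1 := ih (fun j => c j.succ) hu (fun j => h j.succ)
    have h2 := abs_le.1 (h 0)
    have e1 : c 0 * ∏ j : Fin D, c j.succ - u ^ (D + 1) = c 0 * (∏ j : Fin D, c j.succ - u ^ D) + (c 0 - u) * u ^ D := by
      ring
    rw [e1]
    refine (abs_add_le _ _).trans ?_
    rw [abs_mul, abs_mul, abs_of_pos (show 0 < u ^ D by positivity)]
    have h3 : |c 0| ≤ 2 * u := by rw [abs_le]; constructor <;> linarith
    have h4 : |c 0| * |∏ j : Fin D, c j.succ - u ^ D| ≤ 2 * u * (D * 2 ^ D * u ^ D / u) :=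
      mul_le_mul h3 h1 (abs_nonneg _) (by positivity)
    have h5 : |c 0 - u| * u ^ D ≤ 1 * u ^ D := mul_le_mul_of_nonneg_right (h 0) (by positivity)
    have e2 : 2 * u * (D * 2 ^ D * u ^ D / u) = D * 2 ^ (D + 1) * u ^ D := by
      field_simp; ring
    have e3 : ((D + 1 : ℕ) : ℝ) * 2 ^ (D + 1) * u ^ (D + 1) / u = (D + 1) * 2 ^ (D + 1) * u ^ D := by
      rw [pow_succ u D]
      push_cast; field_simp
    rw [e3]
    have h6 : (1 : ℝ) ≤ 2 ^ (D + 1) := one_le_pow₀ (by norm_num)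
    have h7 : 1 * u ^ D ≤ 2 ^ (D + 1) * u ^ D := mul_le_mul_of_nonneg_right h6 (by positivity)
    rw [e2] at h4
    linarith

theorem class_count {H q : ℕ} (hq : 1 ≤ q) (r : ZMod q) :
    |(((Ico (0 : ℤ) H).filter (fun t : ℤ => (t : ZMod q) = r)).card : ℝ) - H / q| ≤ 1 := by
  have hNe : NeZero q := ⟨by omega⟩
  have hq0 : (0 : ℤ) < q := by exact_mod_cast hq
  have h1 := Int.Ico_filter_modEq_card (0 : ℤ) H hq0 (r.val : ℤ)
  have e1 : (Ico (0 : ℤ) H).filter (fun t : ℤ => (t : ZMod q) = r) = (Ico (0 : ℤ) H).filter (fun t : ℤ => t ≡ (r.val : ℤ) [ZMOD q]) := by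
    apply filter_congr
    intro t _
    rw [← ZMod.intCast_eq_intCast_iff]
    simp
  rw [e1]
  have hqQ : (0 : ℚ) < q := by exact_mod_cast hq
  have h2 : ((((Ico (0 : ℤ) H).filter (fun t : ℤ => t ≡ (r.val : ℤ) [ZMOD q])).card : ℤ) : ℚ) =
      ((max (⌈((H : ℤ) - (r.val : ℤ)) / ((q : ℤ) : ℚ)⌉ - ⌈((0 : ℤ) - (r.val : ℤ)) / ((q : ℤ) : ℚ)⌉) 0 : ℤ) : ℚ) := by
    exact_mod_cast h1
  set A : ℤ := ⌈((H : ℤ) - (r.val : ℤ)) / ((q : ℤ) : ℚ)⌉ with hA
  set B : ℤ := ⌈((0 : ℤ) - (r.val : ℤ)) / ((q : ℤ) : ℚ)⌉ with hB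
  have a1 := Int.le_ceil (((H : ℤ) - (r.val : ℤ)) / ((q : ℤ) : ℚ) : ℚ)
  have a2 := Int.ceil_lt_add_one (((H : ℤ) - (r.val : ℤ)) / ((q : ℤ) : ℚ) : ℚ)
  have b1 := Int.le_ceil ((((0 : ℤ) : ℚ) - (r.val : ℤ)) / ((q : ℤ) : ℚ) : ℚ)
  have b2 := Int.ceil_lt_add_one ((((0 : ℤ) : ℚ) - (r.val : ℤ)) / ((q : ℤ) : ℚ) : ℚ)
  rw [← hA] at a1 a2
  rw [← hB] at b1 b2
  have hAB : B ≤ A := by
    rw [hA, hB]
    apply Int.ceil_le_ceil
    apply div_le_div_of_nonneg_right _ (by exact_mod_cast hqQ.le)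
    push_cast
    linarith [show (0 : ℚ) ≤ H from Nat.cast_nonneg _]
  rw [max_eq_left (by omega)] at h2
  have e2 : ((((H : ℤ) : ℚ) - ((r.val : ℤ) : ℚ)) / ((q : ℤ) : ℚ)) - ((((0 : ℤ) : ℚ) - ((r.val : ℤ) : ℚ)) / ((q : ℤ) : ℚ)) = H / q := by
    push_cast; ring
  have h3 : |((((Ico (0 : ℤ) H).filter (fun t : ℤ => t ≡ (r.val : ℤ) [ZMOD q])).card : ℚ)) - H / q| ≤ 1 := by
    have h4 : (((Ico (0 : ℤ) H).filter (fun t : ℤ => t ≡ (r.val : ℤ) [ZMOD q])).card : ℚ) = (A : ℚ) - B := by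
      have : ((((Ico (0 : ℤ) H).filter (fun t : ℤ => t ≡ (r.val : ℤ) [ZMOD q])).card : ℤ) : ℚ) = ((A - B : ℤ) : ℚ) := h2
      push_cast at this
      exact_mod_cast this
    rw [h4, ← e2, abs_le]
    constructor <;> linarith
  have h5 := (Rat.cast_le (K := ℝ)).2 h3
  push_cast at h5
  exact h5

open Classical in
theorem cube_count {D H q : ℕ} (hq : 1 ≤ q) (hqH : q ≤ H) (r : Fin D → ZMod q) :
    |(((cube D H).filter (fun h => rd q h = r)).card : ℝ) - ((H : ℝ) / q) ^ D| ≤ D * 2 ^ D * ((H : ℝ) / q) ^ D * (q / H) := by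
  have e1 : (cube D H).filter (fun h => rd q h = r) = Fintype.piFinset (fun j => (Ico (0 : ℤ) H).filter (fun t : ℤ => (t : ZMod q) = r j)) := by
    ext h
    rw [mem_filter, mem_cube, Fintype.mem_piFinset]
    simp only [mem_filter, mem_Ico]
    constructor
    · rintro ⟨h1, h2⟩ j
      exact ⟨h1 j, congrFun h2 j⟩
    · intro h1
      exact ⟨fun j => (h1 j).1, funext fun j => (h1 j).2⟩
  rw [e1, Fintype.card_piFinset]
  push_cast
  have hqR : (0 : ℝ) < q := by exact_mod_cast hq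
  have hu : 1 ≤ (H : ℝ) / q := by rw [le_div_iff₀ hqR, one_mul]; exact_mod_cast hqH
  have h1 := prod_near D (fun j => (((Ico (0 : ℤ) H).filter (fun t : ℤ => (t : ZMod q) = r j)).card : ℝ)) hu (fun j => class_count hq (r j))
  refine h1.trans (le_of_eq ?_)
  have hH : (0 : ℝ) < H := by
    have : 1 ≤ H := hq.trans hqH
    exact_mod_cast this
  field_simp

theorem cube_count_set {D H q : ℕ} (hq : 1 ≤ q) (hqH : q ≤ H) (R : Finset (Fin D → ZMod q)) [DecidablePred (fun h : Fin D → ℤ => rd q h ∈ R)] :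
    |(((cube D H).filter (fun h => rd q h ∈ R)).card : ℝ) - R.card * ((H : ℝ) / q) ^ D| ≤ D * 2 ^ D * (H : ℝ) ^ D * (q / H) := by
  classical
  have hNe : NeZero q := ⟨by omega⟩
  have hqR : (0 : ℝ) < q := by exact_mod_cast hq
  have hH : (0 : ℝ) < H := by
    have : 1 ≤ H := hq.trans hqH
    exact_mod_cast this
  have e1 : (((cube D H).filter (fun h => rd q h ∈ R)).card : ℝ) = ∑ r ∈ R, (((cube D H).filter (fun h => rd q h = r)).card : ℝ) := by
    rw [card_eq_sum_card_fiberwise (f := fun h => rd q h) (t := R) (by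
      intro h hh
      rw [mem_coe, mem_filter] at hh
      exact hh.2)]
    push_cast
    apply sum_congr rfl
    intro r hr
    congr 2
    ext h
    simp only [mem_filter]
    constructor
    · rintro ⟨⟨h1, h2⟩, h3⟩; exact ⟨h1, h3⟩
    · rintro ⟨h1, h3⟩; exact ⟨⟨h1, by rw [h3]; exact hr⟩, h3⟩
  have e2 : (R.card : ℝ) * ((H : ℝ) / q) ^ D = ∑ r ∈ R, ((H : ℝ) / q) ^ D := by rw [sum_const, nsmul_eq_mul]
  rw [e1, e2, ← sum_sub_distrib]
  refine (abs_sum_le_sum_abs _ _).trans ?_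
  refine (sum_le_sum fun r _ => cube_count hq hqH r).trans ?_
  rw [sum_const, nsmul_eq_mul]
  have h1 : (R.card : ℝ) ≤ (q : ℝ) ^ D := by
    have : R.card ≤ q ^ D := by
      calc R.card ≤ (univ : Finset (Fin D → ZMod q)).card := card_le_univ R
        _ = q ^ D := by rw [card_univ, Fintype.card_fun, ZMod.card, Fintype.card_fin]
    exact_mod_cast this
  calc (R.card : ℝ) * (D * 2 ^ D * ((H : ℝ) / q) ^ D * (q / H)) ≤ (q : ℝ) ^ D * (D * 2 ^ D * ((H : ℝ) / q) ^ D * (q / H)) :=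
        mul_le_mul_of_nonneg_right h1 (by positivity)
    _ = _ := by rw [div_pow]; field_simp

end Pool.Agent.W36.GS
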