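import Pool.Agent.W36.GS.S11

/-! The sifted points of a residue class. -/

set_option autoImplicit false

namespace Pool.Agent.W36.GS

open Finset

/-- the indicator function of the sifted points which are `ρ` modulo `q` -/
noncomputable def sgq {D : ℕ} (q : ℕ) (ρ : Fin D → ZMod q) (Q : Finset ℕ) (Ω : (p : ℕ) → Set (Fin D → ZMod p)) (x : Fin D → ℤ) : ℝ := by
  classical exact if rd q x = ρ then sg Q Ω x else 0

theorem sgq_nonneg {D : ℕ} (q : ℕ) (ρ : Fin D → ZMod q) (Q : Finset ℕ) (Ω : (p : ℕ) → Set (Fin D → ZMod p)) (x : Fin D → ℤ) :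
    0 ≤ sgq q ρ Q Ω x := by
  unfold sgq; split_ifs
  · exact sg_nonneg _ _ _
  · exact le_rfl

theorem sgq_erase {D : ℕ} (q : ℕ) (ρ : Fin D → ZMod q) (Q : Finset ℕ) (Ω : (p : ℕ) → Set (Fin D → ZMod p)) (x : Fin D → ℤ) :
    sgq q ρ Q Ω x ≤ sgq q ρ (Q.erase 2) Ω x := by
  unfold sgq; split_ifs
  · exact sg_erase _ _ _
  · exact le_rfl

/-- the cube of side `q H` and the cube of side `H` -/
theorem cube_class {D q H : ℕ} (hq : 1 ≤ q) {m : ℤ} (hm : IsCoprime m (q : ℤ)) (ρ : Fin D → ZMod q) (x : Fin D → ℤ)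
    (f : (Fin D → ℤ) → ℝ) : ∃ r : Fin D → ℤ,
    (∑ h ∈ cube D (q * H), (by classical exact if rd q (x + m • h) = ρ then f (x + m • h) else 0 : ℝ)) =
      ∑ h ∈ cube D H, f (x + m • r + (m * q) • h) := by
  classical
  have hNe : NeZero q := ⟨by omega⟩
  have hq0 : (0 : ℤ) < q := by exact_mod_cast hq
  obtain ⟨u, v, huv⟩ := hm
  have hu : (u : ZMod q) * (m : ZMod q) = 1 := by
    have h1 : ((u * m + v * q : ℤ) : ZMod q) = ((1 : ℤ) : ZMod q) := by rw [huv]
    push_cast at h1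
    simpa using h1
  set r : Fin D → ℤ := fun j => (((u : ZMod q) * (ρ j - (x j : ZMod q))).val : ℤ) with hr
  have hr0 : ∀ j, 0 ≤ r j ∧ r j < q := fun j => ⟨Int.natCast_nonneg _, by
    show (((u : ZMod q) * (ρ j - (x j : ZMod q))).val : ℤ) < q
    exact_mod_cast ZMod.val_lt ((u : ZMod q) * (ρ j - (x j : ZMod q)))⟩
  have hrc : ∀ j, (r j : ZMod q) = (u : ZMod q) * (ρ j - (x j : ZMod q)) := by
    intro j
    rw [hr]
    simp only
    rw [Int.cast_natCast, ZMod.natCast_zmod_val]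
  have hiff : ∀ h : Fin D → ℤ, rd q (x + m • h) = ρ ↔ ∀ j, h j % q = r j := by
    intro h
    have e1 : ∀ j, (h j % q = r j ↔ (h j : ZMod q) = (r j : ZMod q)) := by
      intro j
      rw [ZMod.intCast_eq_intCast_iff]
      unfold Int.ModEq
      rw [Int.emod_eq_of_lt (hr0 j).1 (hr0 j).2]
    constructor
    · intro h1 j
      rw [e1, hrc]
      have h2 := congrFun h1 j
      unfold rd at h2
      simp only [Pi.add_apply, Pi.smul_apply, smul_eq_mul] at h2
      push_cast at h2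
      rw [← h2]
      calc (h j : ZMod q) = ((u : ZMod q) * m) * h j := by rw [hu, one_mul]
        _ = _ := by ring
    · intro h1
      funext j
      have h2 := (e1 j).1 (h1 j)
      rw [hrc] at h2
      unfold rd
      simp only [Pi.add_apply, Pi.smul_apply, smul_eq_mul]
      push_cast
      rw [h2]
      calc (x j : ZMod q) + m * (u * (ρ j - x j)) = x j + (u * m) * (ρ j - x j) := by ring
        _ = ρ j := by rw [hu, one_mul]; ring
  refine ⟨r, ?_⟩
  rw [← sum_filter]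
  symm
  apply sum_bij' (fun h _ => r + (q : ℤ) • h) (fun h _ => fun j => h j / q)
  · intro h hh
    rw [mem_cube] at hh
    rw [mem_filter, mem_cube, hiff]
    refine ⟨fun j => ?_, fun j => ?_⟩
    · simp only [Pi.add_apply, Pi.smul_apply, smul_eq_mul]
      have h1 := hr0 j
      have h2 := hh j
      push_cast
      constructor
      · have : 0 ≤ (q : ℤ) * h j := mul_nonneg hq0.le h2.1
        linarith
      · have : (q : ℤ) * (h j + 1) ≤ q * H := mul_le_mul_of_nonneg_left (by linarith) hq0.le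
        linarith
    · simp only [Pi.add_apply, Pi.smul_apply, smul_eq_mul]
      rw [Int.add_mul_emod_self_left, Int.emod_eq_of_lt (hr0 j).1 (hr0 j).2]
  · intro h hh
    rw [mem_filter, mem_cube] at hh
    rw [mem_cube]
    intro j
    have h1 := hh.1 j
    constructor
    · exact Int.ediv_nonneg h1.1 hq0.le
    · apply Int.ediv_lt_of_lt_mul hq0
      have h2 := h1.2
      push_cast at h2
      linarith
  · intro h hh
    funext j
    simp only [Pi.add_apply, Pi.smul_apply, smul_eq_mul]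
    rw [Int.add_mul_ediv_left _ _ hq0.ne', Int.ediv_eq_zero_of_lt (hr0 j).1 (hr0 j).2, zero_add]
  · intro h hh
    rw [mem_filter, hiff] at hh
    funext j
    simp only [Pi.add_apply, Pi.smul_apply, smul_eq_mul]
    rw [← hh.2 j]
    exact Int.emod_add_mul_ediv (h j) q
  · intro h _
    congr 1
    funext j
    simp only [Pi.add_apply, Pi.smul_apply, smul_eq_mul]
    ring

/-- the fundamental lemma in a residue class -/
theorem fldq (D κ : ℕ) {ε : ℝ} (hε : 0 < ε) : ∃ K y0 : ℕ, 1 ≤ K ∧ 2 ≤ y0 ∧ ∀ y : ℕ, y0 ≤ y → ∀ H : ℕ, y ^ K ≤ H →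
    ∀ P : Finset ℕ, (∀ p ∈ P, p.Prime ∧ p ≤ y) → ∀ Ω : (p : ℕ) → Set (Fin D → ZMod p), (∀ p ∈ P, (Ω p).ncard * p ≤ κ * p ^ D) →
    ∀ m : ℤ, (∀ p ∈ P, ¬ (p : ℤ) ∣ m) → ∀ q : ℕ, 1 ≤ q → (∀ p ∈ P, ¬ p ∣ q) → IsCoprime m (q : ℤ) → ∀ ρ : Fin D → ZMod q, ∀ x : Fin D → ℤ,
    |∑ h ∈ cube D (q * H), sgq q ρ P Ω (x + m • h) - (H : ℝ) ^ D * VV P Ω| ≤ ε * ((H : ℝ) ^ D * VV P Ω) := by
  obtain ⟨K, y0, hK, hy0, h⟩ := fld D κ hε
  refine ⟨K, y0, hK, hy0, fun y hy H hH P hP Ω hΩ m hm q hq hPq hmq ρ x => ?_⟩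
  obtain ⟨r, hr⟩ := cube_class (H := H) hq hmq ρ x (sg P Ω)
  have h1 := h y hy H hH P hP Ω hΩ (m * q) (by
    intro p hp hd
    have hpi : Prime (p : ℤ) := Nat.prime_iff_prime_int.1 (hP p hp).1
    rcases hpi.dvd_or_dvd hd with h2 | h2
    · exact hm p hp h2
    · exact hPq p hp (by exact_mod_cast h2)) (x + m • r)
  rw [← hr] at h1
  exact h1

end Pool.Agent.W36.GS
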