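import Pool.Agent.W36.GS.S13

/-! The relative law for the sifted points of a residue class. -/

set_option autoImplicit false

namespace Pool.Agent.W36.GS

open Finset Pool.Agent.W36.GK Pool.Agent.H499R2.CO Pool.Agent.W41 Pool.Agent.W41.FU Pool.Agent.H499R2.ND Pool.Agent.W36.GU Pool.Agent.W36.GV

/-- the relative law -/
theorem relativeq {D r κ : ℕ} {Λ : Fin r → Fin (D + 1) → ℤ} (h0 : ∀ i, Λ i ≠ 0) (hΛ : ∀ i j, i ≠ j → Indep (Λ i) (Λ j))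
    {s : Fin r → ℤ} (hs : ∀ i, s i = 1 ∨ s i = -1)
    {ε : ℝ} (hε : 0 < ε) : ∃ θ : ℝ, 0 < θ ∧ ∃ N0 : ℕ, ∀ S : Fin r → Set ℤ, (∀ i, Inv 1 (S i)) → ∀ δ : Fin r → ℝ, (∀ i, HD (s i) (S i) (δ i)) →
    ∀ N : ℕ, N0 ≤ N → ∀ Q : Finset ℕ, (∀ p ∈ Q, p.Prime ∧ (p : ℝ) ≤ (N : ℝ) ^ θ) →
    ∀ Ω : (p : ℕ) → Set (Fin (D + 1) → ZMod p), (∀ p ∈ Q, (Ω p).ncard * p ≤ κ * p ^ (D + 1)) →
    ∀ qq : ℕ, qq % 2 = 1 → (qq : ℝ) ≤ (N : ℝ) ^ θ → (∀ p ∈ Q, ¬ p ∣ qq) → ∀ ρ : Fin (D + 1) → ZMod qq,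
    ∀ c : Fin r → ℤ, ∀ M N' : Fin r → ℕ, (∀ i, M i ≤ N' i) → (∀ i, N' i ≤ N) →
    ∀ P P' : Fin (D + 1) → ℤ, (∀ j, P' j - P j ≤ N) →
    |∑ x ∈ pts Λ c s M N' P P' S, sgq qq ρ Q Ω x - (∏ i, δ i) * ∑ x ∈ pts Λ c s M N' P P' (fun _ => Set.univ), sgq qq ρ Q Ω x| ≤
      ε * (VV Q Ω / (qq : ℝ) ^ (D + 1)) * (N : ℝ) ^ (D + 1) := by
  obtain ⟨θ, hθ, N1, h1⟩ := cmp_parq (κ := κ) h0 hs hε
  obtain ⟨N2, h2⟩ := count (fun s hs => GN_all (Bal_hyp hs) r) Λ h0 hΛ hs (show 0 < ε / 3 by positivity)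
  refine ⟨θ, hθ, N1 + N2, fun S hS δ hδ N hN Q hQ Ω hΩ qq hqo hqN hQq ρ c M N' hM hN' P P' hP => ?_⟩
  have hV' := VV_nn (fun p hp => (hQ p hp).1) Ω
  obtain ⟨V, hVd⟩ : ∃ V : ℝ, V = VV Q Ω / (qq : ℝ) ^ (D + 1) := ⟨_, rfl⟩
  have hV : 0 ≤ V := by rw [hVd]; positivity
  have a1 := h1 N (by omega) Q hQ Ω hΩ qq hqo hqN hQq ρ S (fun i x => hS i x) c M N' hM P P' hP
  have a2 := h1 N (by omega) Q hQ Ω hΩ qq hqo hqN hQq ρ (fun _ => Set.univ) (fun i x => Iff.rfl) c M N' hM P P' hP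
  rw [← hVd] at a1 a2 ⊢
  have a3 := h2 S hS δ hδ N (by omega) c M N' hM hN' P P' hP
  rw [← pts_Cn, ← pts_Cn] at a3
  have hd : ∀ i, 0 ≤ δ i ∧ δ i ≤ 1 := fun i => HD_mem (hs i) (hδ i)
  have hd0 : 0 ≤ ∏ i, δ i := prod_nonneg fun i _ => (hd i).1
  have hd1 : ∏ i, δ i ≤ 1 := prod_le_one (fun i _ => (hd i).1) (fun i _ => (hd i).2)
  obtain ⟨a, ha⟩ : ∃ a, a = ∑ x ∈ pts Λ c s M N' P P' S, sgq qq ρ Q Ω x := ⟨_, rfl⟩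
  obtain ⟨b, hb⟩ : ∃ b, b = ∑ x ∈ pts Λ c s M N' P P' (fun _ => Set.univ), sgq qq ρ Q Ω x := ⟨_, rfl⟩
  obtain ⟨n, hn⟩ : ∃ n, n = ((pts Λ c s M N' P P' S).card : ℝ) := ⟨_, rfl⟩
  obtain ⟨m, hm⟩ : ∃ m, m = ((pts Λ c s M N' P P' (fun _ => Set.univ)).card : ℝ) := ⟨_, rfl⟩
  rw [← ha, ← hn] at a1
  rw [← hb, ← hm] at a2
  rw [← hn, ← hm] at a3
  rw [← ha, ← hb]
  have e : a - (∏ i, δ i) * b = (a - V * n) + V * (n - (∏ i, δ i) * m) - (∏ i, δ i) * (b - V * m) := by ring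
  rw [e]
  have b1 : |V * (n - (∏ i, δ i) * m)| ≤ V * (ε / 3 * (N : ℝ) ^ (D + 1)) := by
    rw [abs_mul, abs_of_nonneg hV]
    exact mul_le_mul_of_nonneg_left a3 hV
  have b2 : |(∏ i, δ i) * (b - V * m)| ≤ 1 * (ε / 3 * V * (N : ℝ) ^ (D + 1)) := by
    rw [abs_mul, abs_of_nonneg hd0]
    exact mul_le_mul hd1 a2 (abs_nonneg _) zero_le_one
  calc |(a - V * n) + V * (n - (∏ i, δ i) * m) - (∏ i, δ i) * (b - V * m)|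
      ≤ |(a - V * n) + V * (n - (∏ i, δ i) * m)| + |(∏ i, δ i) * (b - V * m)| := abs_sub _ _
    _ ≤ |a - V * n| + |V * (n - (∏ i, δ i) * m)| + |(∏ i, δ i) * (b - V * m)| := by
      have := abs_add_le (a - V * n) (V * (n - (∏ i, δ i) * m))
      linarith
    _ ≤ ε * V * (N : ℝ) ^ (D + 1) := by linarith

/-- many sifted points -/
theorem many_siftq {D r κ : ℕ} {Λ : Fin r → Fin (D + 1) → ℤ} (hΛ : ∀ i j, i ≠ j → Indep (Λ i) (Λ j))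
    {v : Fin (D + 1) → ℤ} (hv : ∀ i, 0 < dot (Λ i) v) {s : ℤ} (hs : s = 1 ∨ s = -1) {S : Fin r → Set ℤ} (hS : ∀ i, Inv 1 (S i))
    {δ : Fin r → ℝ} (hδ : ∀ i, HD s (S i) (δ i)) (hδ0 : ∀ i, 0 < δ i) :
    ∃ κ' : ℝ, 0 < κ' ∧ ∃ θ : ℝ, 0 < θ ∧ ∃ N0 : ℕ, ∀ N : ℕ, N0 ≤ N → ∀ Q : Finset ℕ, (∀ p ∈ Q, p.Prime ∧ (p : ℝ) ≤ (N : ℝ) ^ θ) →
    ∀ Ω : (p : ℕ) → Set (Fin (D + 1) → ZMod p), (∀ p ∈ Q, (Ω p).ncard * p ≤ κ * p ^ (D + 1)) →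
    ∀ qq : ℕ, qq % 2 = 1 → (qq : ℝ) ≤ (N : ℝ) ^ θ → (∀ p ∈ Q, ¬ p ∣ qq) → ∀ ρ : Fin (D + 1) → ZMod qq,
      κ' * (VV Q Ω / (qq : ℝ) ^ (D + 1)) * (N : ℝ) ^ (D + 1) ≤ ∑ x ∈ pts Λ 0 (fun _ => s) (fun _ => 0) (fun _ => N) (fun _ => -(N : ℤ)) (fun _ => (N : ℤ)) S, sgq qq ρ Q Ω x := by
  obtain ⟨κ1, hκ1, N1, h1⟩ := many_pts (fun s hs => GN_all (Bal_hyp hs) r) Λ hΛ v hv hs hS hδ hδ0
  have h0 : ∀ i, Λ i ≠ 0 := by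
    intro i h
    have := hv i
    rw [h] at this
    unfold dot at this
    simp at this
  obtain ⟨θ, hθ, N2, h2⟩ := cmp_parq (κ := κ) h0 (s := fun _ => s) (fun _ => hs) (show 0 < κ1 / 2 ^ (D + 1) by positivity)
  refine ⟨κ1 / 2, by positivity, θ, hθ, N1 + N2 + 1, fun N hN Q hQ Ω hΩ qq hqo hqN hQq ρ => ?_⟩
  have hV' := VV_nn (fun p hp => (hQ p hp).1) Ω
  obtain ⟨V, hVd⟩ : ∃ V : ℝ, V = VV Q Ω / (qq : ℝ) ^ (D + 1) := ⟨_, rfl⟩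
  have hV : 0 ≤ V := by rw [hVd]; positivity
  rw [← hVd]
  have a1 := h1 N (by omega)
  rw [← pts_Cn] at a1
  have hNR : (1 : ℝ) ≤ N := by exact_mod_cast (by omega : 1 ≤ N)
  have hθN : (N : ℝ) ^ θ ≤ ((2 * N : ℕ) : ℝ) ^ θ := by
    apply Real.rpow_le_rpow (by linarith) _ hθ.le
    push_cast; linarith
  have a2 := h2 (2 * N) (by omega) Q (fun p hp => ⟨(hQ p hp).1, (hQ p hp).2.trans hθN⟩) Ω hΩ qq hqo (hqN.trans hθN) hQq ρ S (fun i x => hS i x) 0 (fun _ => 0) (fun _ => N)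
    (fun _ => Nat.zero_le _) (fun _ => -(N : ℤ)) (fun _ => (N : ℤ)) (fun _ => by push_cast; linarith)
  rw [← hVd] at a2
  have a3 := (abs_le.1 a2).1
  have a4 := mul_le_mul_of_nonneg_left a1 hV
  have e1 : κ1 / 2 ^ (D + 1) / 3 * V * ((2 * N : ℕ) : ℝ) ^ (D + 1) = κ1 / 3 * (V * (N : ℝ) ^ (D + 1)) := by
    push_cast
    rw [mul_pow]
    field_simp
  rw [e1] at a3
  have h5 : 0 ≤ V * (N : ℝ) ^ (D + 1) := by positivity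
  have h6 : κ1 / 2 * (V * (N : ℝ) ^ (D + 1)) ≤ κ1 * (V * (N : ℝ) ^ (D + 1)) - κ1 / 3 * (V * (N : ℝ) ^ (D + 1)) := by
    have : 0 ≤ κ1 * (V * (N : ℝ) ^ (D + 1)) := by positivity
    linarith
  calc κ1 / 2 * V * (N : ℝ) ^ (D + 1) = κ1 / 2 * (V * (N : ℝ) ^ (D + 1)) := by ring
    _ ≤ _ := h6
    _ ≤ _ := by linarith

end Pool.Agent.W36.GS
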