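import Pool.Agent.W36.GS.S14

/-! Lower bound for the density of the sifted points; the zeros of a linear form modulo a prime. -/

set_option autoImplicit false

namespace Pool.Agent.W36.GS

open Finset Pool.Agent.W41

theorem log_large (c : ℝ) : ∃ x0 : ℕ, ∀ x : ℕ, x0 ≤ x → c ≤ Real.log x := by
  have h := (Real.tendsto_log_atTop.comp (tendsto_natCast_atTop_atTop (R := ℝ))).eventually_ge_atTop c
  rw [Filter.eventually_atTop] at h
  obtain ⟨x0, hx0⟩ := h
  exact ⟨x0, fun x hx => hx0 x hx⟩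

/-- the sum of the reciprocals of the primes up to `y` (after `Vz_low` of `H373R2.T7.Fund`) -/
theorem recip : ∃ K : ℝ, 0 < K ∧ ∀ y : ℕ, ∑ p ∈ (Icc 1 y).filter Nat.Prime, (1 : ℝ) / p ≤ JJ y * K := by
  classical
  obtain ⟨C0, hC0, hM⟩ := Pool.Agent.Helper112.LP.mertens_group
  set K : ℝ := 1 + C0 with hK
  have hK0 : 0 < K := by positivity
  refine ⟨K, hK0, fun y => ?_⟩
  have hG : ∀ j, 1 ≤ j → ∑ l ∈ Pool.Agent.Helper112.LP.Gj j, (1 : ℝ) / l ≤ K := by
    intro j hj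
    have h1 := (abs_le.1 (hM j hj)).2
    have h2 : C0 / 2 ^ j ≤ C0 := div_le_self hC0.le (one_le_pow₀ (by norm_num))
    have h3 : Real.log 2 ≤ 1 := by have := Real.log_two_lt_d9; linarith
    rw [hK]
    linarith
  have hsub : (Icc 1 y).filter Nat.Prime ⊆ (Icc 1 (JJ y)).biUnion (fun j => Pool.Agent.Helper112.LP.Gj j) := by
    intro p hp
    rw [mem_filter, mem_Icc] at hp
    obtain ⟨⟨-, h1⟩, h2⟩ := hp
    have h3 : p < 2 ^ 2 ^ JJ y := lt_of_le_of_lt h1 (JJ_lt y)
    have hex : ∃ j, p < 2 ^ 2 ^ j := ⟨_, h3⟩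
    set j := Nat.find hex with hj
    have h4 : p < 2 ^ 2 ^ j := Nat.find_spec hex
    have h5 : j ≤ JJ y := Nat.find_min' hex h3
    have h6 : 1 ≤ j := by
      by_contra h
      have h7 : j = 0 := by omega
      rw [h7] at h4
      have := h2.two_le
      norm_num at h4
      omega
    have h7 : 2 ^ 2 ^ (j - 1) ≤ p := by
      by_contra h
      have := Nat.find_min hex (m := j - 1) (by omega)
      omega
    rw [mem_biUnion]
    refine ⟨j, mem_Icc.2 ⟨h6, h5⟩, ?_⟩
    unfold Pool.Agent.Helper112.LP.Gj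
    rw [mem_filter, mem_Ico]
    exact ⟨⟨h7, h4⟩, h2⟩
  calc ∑ p ∈ (Icc 1 y).filter Nat.Prime, (1 : ℝ) / p ≤ ∑ p ∈ (Icc 1 y).filter Nat.Prime, ∑ j ∈ Icc 1 (JJ y), (if p ∈ Pool.Agent.Helper112.LP.Gj j then (1 : ℝ) / p else 0) := by
        apply sum_le_sum
        intro p hp
        obtain ⟨j, hj, hpj⟩ := mem_biUnion.1 (hsub hp)
        have h1 := single_le_sum (f := fun j => if p ∈ Pool.Agent.Helper112.LP.Gj j then (1 : ℝ) / p else 0)
          (s := Icc 1 (JJ y)) (fun j _ => by split_ifs <;> positivity) hj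
        simp only [if_pos hpj] at h1
        exact h1
    _ ≤ ∑ j ∈ Icc 1 (JJ y), ∑ p ∈ Pool.Agent.Helper112.LP.Gj j, (1 : ℝ) / p := by
        rw [sum_comm]
        apply sum_le_sum
        intro j _
        rw [← sum_filter]
        apply sum_le_sum_of_subset_of_nonneg
        · intro p hp
          exact (mem_filter.1 hp).2
        · intro _ _ _
          positivity
    _ ≤ ∑ _j ∈ Icc 1 (JJ y), K := sum_le_sum fun j hj => hG j (mem_Icc.1 hj).1
    _ = _ := by rw [sum_const, nsmul_eq_mul, Nat.card_Icc, Nat.add_sub_cancel]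

theorem VV_log (D κ : ℕ) : ∃ C N0 : ℕ, ∀ y : ℕ, N0 ≤ y → ∀ Q : Finset ℕ, (∀ p ∈ Q, p.Prime ∧ p ≤ y) →
    ∀ Ω : (p : ℕ) → Set (Fin D → ZMod p), (∀ p ∈ Q, (Ω p).ncard * p ≤ κ * p ^ D) → VV Q Ω ≠ 0 → 1 / Real.log y ^ C ≤ VV Q Ω := by
  obtain ⟨K, hK0, hK⟩ := recip
  obtain ⟨z0, hz0⟩ : ∃ z0, z0 = 2 * κ := ⟨_, rfl⟩
  obtain ⟨K0, hK00⟩ : ∃ K0 : ℕ, K0 = ∏ p ∈ (Icc 1 z0).filter Nat.Prime, p := ⟨_, rfl⟩
  have hK01 : 1 ≤ K0 := by
    rw [hK00]
    exact Nat.pos_of_ne_zero (prod_ne_zero_iff.2 fun p hp => (mem_filter.1 hp).2.ne_zero)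
  obtain ⟨C', hC'⟩ := exists_large (2 * κ * K / Real.log 2)
  obtain ⟨N0, h0⟩ := log_large (4 + K0)
  refine ⟨D + 2 * C', N0 + 2, fun y hy Q hQ Ω hΩ hV0 => ?_⟩
  have hL := h0 y (by omega)
  have hK0R : (1 : ℝ) ≤ K0 := by exact_mod_cast hK01
  have hlog2 : 0 < Real.log 2 := Real.log_pos (by norm_num)
  have hlog2' : 1 / 2 < Real.log 2 := by have := Real.log_two_gt_d9; linarith
  obtain ⟨L, hLd⟩ : ∃ L, L = Real.log y := ⟨_, rfl⟩
  rw [← hLd] at hL ⊢
  have hL0 : 0 < L := by linarith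
  set P0 : Finset ℕ := Q.filter (fun p => p ≤ z0) with hP0
  set P1 : Finset ℕ := Q.filter (fun p => ¬ p ≤ z0) with hP1
  have hPu : Q = P0 ∪ P1 := (filter_union_filter_not_eq _ _).symm
  have hdisj : Disjoint P0 P1 := disjoint_filter_filter_not _ _ _
  have hVV : VV Q Ω = VV P0 Ω * VV P1 Ω := by
    unfold VV
    conv_lhs => rw [hPu]
    rw [prod_union hdisj]
  have hPp0 : ∀ p ∈ P0, p.Prime ∧ p ≤ z0 := by
    intro p hp
    rw [hP0, mem_filter] at hp
    exact ⟨(hQ p hp.1).1, hp.2⟩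
  have hV00 : VV P0 Ω ≠ 0 := fun h => hV0 (by rw [hVV, h, zero_mul])
  have hVs : 1 / (K0 : ℝ) ^ D ≤ VV P0 Ω := by
    rw [hK00]
    exact VV_small hPp0 hV00
  have hVl : Real.exp (-(2 * κ * (JJ y * K))) ≤ VV P1 Ω := by
    have h1 : ∑ p ∈ P1, (1 : ℝ) / p ≤ JJ y * K := by
      refine le_trans ?_ (hK y)
      apply sum_le_sum_of_subset_of_nonneg
      · intro p hp
        rw [hP1, mem_filter] at hp
        rw [mem_filter, mem_Icc]
        exact ⟨⟨(hQ p hp.1).1.one_lt.le, (hQ p hp.1).2⟩, (hQ p hp.1).1⟩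
      · intro p _ _; positivity
    have h2 : Real.exp (-(2 * κ * ∑ p ∈ P1, (1 : ℝ) / p)) ≤ VV P1 Ω := by
      unfold VV
      rw [mul_sum, ← sum_neg_distrib, Real.exp_sum]
      apply prod_le_prod (fun _ _ => (Real.exp_pos _).le)
      intro p hp
      rw [hP1, mem_filter] at hp
      have hpp := (hQ p hp.1).1
      have hp0 : (0 : ℝ) < p := by exact_mod_cast hpp.pos
      have h3 : dn Ω p ≤ κ / p := by
        unfold dn
        rw [div_le_div_iff₀ (by positivity) hp0]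
        exact_mod_cast hΩ p hp.1
      have h4 : (κ : ℝ) / p ≤ 1 / 2 := by
        rw [div_le_div_iff₀ hp0 (by norm_num)]
        have : 2 * κ ≤ p := by omega
        have : (2 : ℝ) * κ ≤ p := by exact_mod_cast this
        linarith
      have h5 : 0 ≤ (κ : ℝ) / p := by positivity
      obtain ⟨t, ht⟩ : ∃ t : ℝ, t = κ / p := ⟨_, rfl⟩
      rw [← ht] at h3 h4 h5
      have e1 : 2 * (κ : ℝ) * (1 / p) = 2 * t := by rw [ht]; ring
      rw [e1]
      have h6 : 0 < 1 - t := by linarith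
      have h7 : Real.exp (-(2 * t)) ≤ 1 - t := by
        rw [← Real.le_log_iff_exp_le h6]
        have h8 := Real.one_sub_inv_le_log_of_pos h6
        have h9 : (1 - t)⁻¹ ≤ 1 + 2 * t := by
          rw [inv_le_iff_one_le_mul₀ h6]
          nlinarith
        linarith
      linarith
    refine le_trans ?_ h2
    apply Real.exp_le_exp.2
    have : 2 * (κ : ℝ) * ∑ p ∈ P1, (1 : ℝ) / p ≤ 2 * κ * (JJ y * K) := mul_le_mul_of_nonneg_left h1 (by positivity)
    linarith
  have h2J : (2 : ℝ) ^ JJ y ≤ 4 * L := by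
    have h1 : ((2 ^ JJ y : ℕ) : ℝ) ≤ ((2 * Nat.log 2 y : ℕ) : ℝ) := by exact_mod_cast JJ_pow y (by omega)
    push_cast at h1
    have h2 : (Nat.log 2 y : ℝ) * Real.log 2 ≤ L := by
      have h3 : (2 : ℝ) ^ Nat.log 2 y ≤ y := by
        exact_mod_cast Nat.pow_log_le_self 2 (by omega : y ≠ 0)
      have h4 := Real.log_le_log (by positivity) h3
      rw [hLd]
      rwa [Real.log_pow] at h4
    have h3 : (0 : ℝ) ≤ Nat.log 2 y := Nat.cast_nonneg _
    nlinarith
  have hJ : (JJ y : ℝ) * Real.log 2 ≤ Real.log (4 * L) := by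
    have := Real.log_le_log (by positivity) h2J
    rwa [Real.log_pow] at this
  have h1 : 2 * κ * (JJ y * K) ≤ C' * Real.log (4 * L) := by
    have h3 : 2 * κ * K ≤ C' * Real.log 2 := by rwa [div_le_iff₀ hlog2] at hC'
    have hJ0 : (0 : ℝ) ≤ JJ y := Nat.cast_nonneg _
    calc 2 * κ * (JJ y * K) = JJ y * (2 * κ * K) := by ring
      _ ≤ JJ y * (C' * Real.log 2) := mul_le_mul_of_nonneg_left h3 hJ0
      _ = C' * (JJ y * Real.log 2) := by ring
      _ ≤ _ := mul_le_mul_of_nonneg_left hJ (Nat.cast_nonneg _)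
  have h3 : 1 / (4 * L) ^ C' ≤ Real.exp (-(2 * κ * (JJ y * K))) := by
    have e : 1 / (4 * L) ^ C' = Real.exp (-(C' * Real.log (4 * L))) := by
      rw [Real.exp_neg, ← Real.log_pow, Real.exp_log (by positivity), one_div]
    rw [e]
    apply Real.exp_le_exp.2
    linarith
  have h4 : 1 / (4 * L) ^ C' ≤ VV P1 Ω := h3.trans hVl
  have h5 : 1 / ((K0 : ℝ) ^ D * (4 * L) ^ C') ≤ VV Q Ω := by
    rw [hVV, one_div, mul_inv, ← one_div, ← one_div]
    exact mul_le_mul hVs h4 (by positivity) (le_trans (by positivity) hVs)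
  refine le_trans ?_ h5
  apply one_div_le_one_div_of_le (by positivity)
  rw [pow_add]
  apply mul_le_mul
  · exact pow_le_pow_left₀ (by positivity) (by linarith) _
  · calc (4 * L) ^ C' ≤ (L ^ 2) ^ C' := pow_le_pow_left₀ (by positivity) (by nlinarith) _
      _ = L ^ (2 * C') := by rw [← pow_mul]
  · positivity
  · positivity

/-- the zeros of a linear form modulo a prime -/
theorem zero_card {D p : ℕ} (hp : p.Prime) {a : Fin D → ZMod p} (ha : a ≠ 0) :
    ({x : Fin D → ZMod p | ∑ j, a j * x j = 0} : Set (Fin D → ZMod p)).ncard * p ≤ p ^ D := by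
  classical
  have hNe : NeZero p := ⟨hp.ne_zero⟩
  have hF : Fact p.Prime := ⟨hp⟩
  obtain ⟨k, hk⟩ := Function.ne_iff.1 ha
  have hk' : a k ≠ 0 := hk
  set Z : Finset (Fin D → ZMod p) := univ.filter (fun x => ∑ j, a j * x j = 0) with hZ
  have e1 : ({x : Fin D → ZMod p | ∑ j, a j * x j = 0} : Set (Fin D → ZMod p)) = (Z : Set (Fin D → ZMod p)) := by
    ext x; simp [hZ]
  rw [e1, Set.ncard_coe_finset]
  have h1 : (Z ×ˢ (univ : Finset (ZMod p))).card ≤ (univ : Finset (Fin D → ZMod p)).card := by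
    apply card_le_card_of_injOn (fun q => q.1 + q.2 • Pi.single k 1)
    · intro q _; exact mem_coe.2 (mem_univ _)
    · rintro ⟨x, t⟩ hx ⟨x', t'⟩ hx' h
      rw [mem_coe, mem_product, hZ, mem_filter] at hx hx'
      have hx1 := hx.1.2
      have hx2 := hx'.1.2
      simp only at hx1 hx2 h
      have key : ∀ (x : Fin D → ZMod p) (t : ZMod p), ∑ j, a j * x j = 0 → ∑ j, a j * (x + t • (Pi.single k 1 : Fin D → ZMod p)) j = a k * t := by
        intro x t hx
        simp only [Pi.add_apply, Pi.smul_apply, smul_eq_mul, mul_add, sum_add_distrib]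
        rw [hx, zero_add, sum_eq_single k]
        · simp
        · intro b _ hb
          rw [Pi.single_eq_of_ne hb]; ring
        · intro h; exact absurd (mem_univ k) h
      have h2 : a k * t = a k * t' := by
        rw [← key x t hx1, ← key x' t' hx2, h]
      have h3 := mul_left_cancel₀ hk' h2
      subst h3
      have h4 := add_right_cancel h
      rw [h4]
  rw [card_product, card_univ, ZMod.card, card_univ, Fintype.card_fun, ZMod.card, Fintype.card_fin] at h1
  exact h1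

end Pool.Agent.W36.GS
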