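import Pool.Agent.W36.GS.S15

/-! Almost prime values of systems of linear forms in invariant sets. -/

set_option autoImplicit false

namespace Pool.Agent.W36.GS

open Finset Pool.Agent.W36.GK Pool.Agent.H499R2.CO Pool.Agent.W41 Pool.Agent.W41.FU Pool.Agent.H499R2.ND Pool.Agent.W36.GU Pool.Agent.W36.GV

/-- the classes modulo `p` where some form vanishes -/
def zs {D r : ℕ} (Λ : Fin r → Fin D → ℤ) (p : ℕ) : Set (Fin D → ZMod p) := {x | ∃ i, ∑ j, (Λ i j : ZMod p) * x j = 0}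

theorem rd_zs {D r : ℕ} (Λ : Fin r → Fin D → ℤ) (p : ℕ) (x : Fin D → ℤ) : rd p x ∈ zs Λ p ↔ ∃ i, (p : ℤ) ∣ dot (Λ i) x := by
  unfold zs rd
  rw [Set.mem_ofPred_eq]
  apply exists_congr
  intro i
  rw [← ZMod.intCast_zmod_eq_zero_iff_dvd]
  unfold dot
  push_cast
  rfl

theorem zs_card {D r p : ℕ} {Λ : Fin r → Fin D → ℤ} (hp : p.Prime) {u : Fin D → ℤ} (hu : ∀ i, ¬ (p : ℤ) ∣ dot (Λ i) u) :
    (zs Λ p).ncard * p ≤ r * p ^ D := by
  classical
  have hNe : NeZero p := ⟨hp.ne_zero⟩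
  have e1 : zs Λ p = ⋃ i ∈ (univ : Finset (Fin r)), {x : Fin D → ZMod p | ∑ j, (Λ i j : ZMod p) * x j = 0} := by
    ext x
    unfold zs
    simp
  have h1 : (zs Λ p).ncard ≤ ∑ i : Fin r, ({x : Fin D → ZMod p | ∑ j, (Λ i j : ZMod p) * x j = 0} : Set _).ncard := by
    rw [e1]
    exact Finset.set_ncard_biUnion_le univ _
  calc (zs Λ p).ncard * p ≤ (∑ i : Fin r, ({x : Fin D → ZMod p | ∑ j, (Λ i j : ZMod p) * x j = 0} : Set _).ncard) * p :=
        Nat.mul_le_mul_right _ h1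
    _ = ∑ i : Fin r, ({x : Fin D → ZMod p | ∑ j, (Λ i j : ZMod p) * x j = 0} : Set _).ncard * p := sum_mul _ _ _
    _ ≤ ∑ _i : Fin r, p ^ D := by
        apply sum_le_sum
        intro i _
        apply zero_card hp
        intro h
        apply hu i
        rw [← ZMod.intCast_zmod_eq_zero_iff_dvd]
        unfold dot
        push_cast
        apply sum_eq_zero
        intro j _
        have := congrFun h j
        simp only [Pi.zero_apply] at this
        rw [this, zero_mul]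
    _ = r * p ^ D := by rw [sum_const, card_univ, Fintype.card_fin, smul_eq_mul]

theorem VV_ne {D : ℕ} {Q : Finset ℕ} (hQ : ∀ p ∈ Q, p.Prime) {Ω : (p : ℕ) → Set (Fin D → ZMod p)}
    (h : ∀ p ∈ Q, ∃ u : Fin D → ZMod p, u ∉ Ω p) : VV Q Ω ≠ 0 := by
  apply prod_ne_zero_iff.2
  intro p hp
  have hpp := hQ p hp
  have hNe : NeZero p := ⟨hpp.ne_zero⟩
  have hpR : (0 : ℝ) < p := by exact_mod_cast hpp.pos
  obtain ⟨u, hu⟩ := h p hp
  have h1 : (Ω p).ncard < p ^ D := by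
    have h2 : (Ω p).ncard < (Set.univ : Set (Fin D → ZMod p)).ncard := by
      apply Set.ncard_lt_ncard _ Set.finite_univ
      exact ⟨Set.subset_univ _, fun h3 => hu (h3 (Set.mem_univ u))⟩
    rwa [Set.ncard_univ, Nat.card_eq_fintype_card, Fintype.card_fun, ZMod.card, Fintype.card_fin] at h2
  unfold dn
  have h3 : ((Ω p).ncard : ℝ) < (p : ℝ) ^ D := by exact_mod_cast h1
  have h4 : ((Ω p).ncard : ℝ) / (p : ℝ) ^ D < 1 := by rw [div_lt_one (by positivity)]; exact h3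
  linarith

theorem list_pow {z : ℕ} : ∀ l : List ℕ, (∀ p ∈ l, z ≤ p) → z ^ l.length ≤ l.prod := by
  intro l
  induction l with
  | nil => intro _; simp
  | cons a l ih =>
    intro h
    rw [List.length_cons, List.prod_cons, pow_succ, mul_comm]
    exact Nat.mul_le_mul (h a (by simp)) (ih fun p hp => h p (by simp [hp]))

theorem few_factors {n y N : ℕ} (hn : n ≠ 0) (hnN : n ≤ N) (h : ∀ p, p.Prime → p ∣ n → y + 1 ≤ p) {θ : ℝ} (hθ : 0 < θ)
    (hy : (N : ℝ) ^ θ < (y : ℝ) + 1) (hN : 1 ≤ N) {A : ℕ} (hA : 1 / θ ≤ A) : ArithmeticFunction.cardFactors n ≤ A := by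
  have h1 : (y + 1) ^ ArithmeticFunction.cardFactors n ≤ n := by
    rw [ArithmeticFunction.cardFactors_apply]
    have := list_pow n.primeFactorsList (z := y + 1) (fun p hp => h p (Nat.prime_of_mem_primeFactorsList hp) (Nat.dvd_of_mem_primeFactorsList hp))
    rwa [Nat.prod_primeFactorsList hn] at this
  by_contra hcon
  push Not at hcon
  have hy1 : (1 : ℝ) < (y : ℝ) + 1 := by
    have : (1 : ℝ) ≤ (N : ℝ) ^ θ := Real.one_le_rpow (by exact_mod_cast hN) hθ.le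
    linarith
  have h2 : ((y : ℝ) + 1) ^ (1 / θ) ≤ ((y : ℝ) + 1) ^ (ArithmeticFunction.cardFactors n : ℝ) := by
    apply Real.rpow_le_rpow_of_exponent_le hy1.le
    refine hA.trans ?_
    exact_mod_cast hcon.le
  have h3 : (N : ℝ) < ((y : ℝ) + 1) ^ (1 / θ) := by
    have h4 : ((N : ℝ) ^ θ) ^ (1 / θ) < ((y : ℝ) + 1) ^ (1 / θ) := Real.rpow_lt_rpow (by positivity) hy (by positivity)
    rwa [← Real.rpow_mul (Nat.cast_nonneg _), mul_one_div_cancel hθ.ne', Real.rpow_one] at h4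
  rw [Real.rpow_natCast] at h2
  have h5 : ((y : ℝ) + 1) ^ ArithmeticFunction.cardFactors n ≤ N := by exact_mod_cast h1.trans hnN
  linarith

/-- almost prime values -/
theorem patterns {D r : ℕ} {Λ : Fin r → Fin (D + 1) → ℤ} (hΛ : ∀ i j, i ≠ j → Indep (Λ i) (Λ j))
    {v : Fin (D + 1) → ℤ} (hv : ∀ i, 0 < dot (Λ i) v) (hadm : ∀ p : ℕ, p.Prime → ∃ u : Fin (D + 1) → ℤ, ∀ i, ¬ (p : ℤ) ∣ dot (Λ i) u)
    {s : ℤ} (hs : s = 1 ∨ s = -1) {S : Fin r → Set ℤ} (hS : ∀ i, Inv 1 (S i))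
    {δ : Fin r → ℝ} (hδ : ∀ i, HD s (S i) (δ i)) (hδ0 : ∀ i, 0 < δ i) :
    ∃ A : ℕ, ∀ q : ℕ, q % 2 = 1 → ∀ ρ : Fin (D + 1) → ℤ, (∀ i, IsCoprime (dot (Λ i) ρ) (q : ℤ)) → ∀ N : ℕ, A * q ^ A ≤ N →
      (N : ℝ) ^ (D + 1) ≤ (q : ℝ) ^ (D + 1) * Real.log N ^ A * ({x : Fin (D + 1) → ℤ | (∀ j, -(N : ℤ) < x j ∧ x j ≤ N ∧ (q : ℤ) ∣ x j - ρ j) ∧
        ∀ i, dot (Λ i) x ∈ S i ∧ 0 < s * dot (Λ i) x ∧ s * dot (Λ i) x ≤ N ∧ ArithmeticFunction.cardFactors (dot (Λ i) x).natAbs ≤ A}.ncard : ℝ) := by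
  classical
  obtain ⟨κ', hκ', θ1, hθ1, N1, h1⟩ := many_siftq (κ := r) hΛ hv hs hS hδ hδ0
  obtain ⟨C, N2, h2⟩ := VV_log (D + 1) r
  obtain ⟨θ, hθd⟩ : ∃ θ : ℝ, θ = min θ1 1 := ⟨_, rfl⟩
  have hθ : 0 < θ := by rw [hθd]; exact lt_min hθ1 one_pos
  have hθθ1 : θ ≤ θ1 := by rw [hθd]; exact min_le_left _ _
  have hθ11 : θ ≤ 1 := by rw [hθd]; exact min_le_right _ _
  obtain ⟨A1, hA1⟩ := exists_large (1 / θ)
  obtain ⟨A2, hA2⟩ := exists_large (((N2 : ℝ) + 3) ^ (1 / θ))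
  obtain ⟨x0, hx0⟩ := log_large (1 + 1 / κ')
  obtain ⟨A, hA⟩ : ∃ A, A = A1 + A2 + x0 + N1 + C + 2 := ⟨_, rfl⟩
  refine ⟨A, fun q hq ρ hρ N hN => ?_⟩
  have hq1 : 1 ≤ q := by omega
  have hNA : A ≤ N := le_trans (Nat.le_mul_of_pos_right _ (Nat.pow_pos hq1)) hN
  have hN1 : 1 ≤ N := by omega
  have hNR : (1 : ℝ) ≤ N := by exact_mod_cast hN1
  have hNN : (N : ℝ) ^ θ ≤ (N : ℝ) ^ θ1 := Real.rpow_le_rpow_of_exponent_le hNR hθθ1
  obtain ⟨y, hy⟩ : ∃ y : ℕ, y = ⌊(N : ℝ) ^ θ⌋₊ := ⟨_, rfl⟩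
  have hy1 : (y : ℝ) ≤ (N : ℝ) ^ θ := by rw [hy]; exact Nat.floor_le (by positivity)
  have hy2 : (N : ℝ) ^ θ < (y : ℝ) + 1 := by rw [hy]; exact Nat.lt_floor_add_one _
  have hyN2 : N2 + 2 ≤ y := by
    have h3 : ((N2 : ℝ) + 3) ≤ (N : ℝ) ^ θ := by
      have h4 : ((N2 : ℝ) + 3) ^ (1 / θ) ≤ N := hA2.trans (by exact_mod_cast (by omega : A2 ≤ N))
      have h5 := Real.rpow_le_rpow (by positivity) h4 hθ.le
      rwa [← Real.rpow_mul (by positivity), one_div_mul_cancel hθ.ne', Real.rpow_one] at h5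
    have h4 : (N2 : ℝ) + 2 < y := by linarith
    have h5 : N2 + 2 < y := by exact_mod_cast h4
    omega
  have hyN : y ≤ N := by
    have : (N : ℝ) ^ θ ≤ (N : ℝ) ^ (1 : ℝ) := Real.rpow_le_rpow_of_exponent_le hNR hθ11
    rw [Real.rpow_one] at this
    exact_mod_cast hy1.trans this
  have hqN : (q : ℝ) ≤ (N : ℝ) ^ θ1 := by
    have hA0 : (0 : ℝ) < A := by exact_mod_cast (by omega : 0 < A)
    have h3 : ((q : ℝ) ^ A) ≤ N := by
      have h4 : 1 * q ^ A ≤ A * q ^ A := Nat.mul_le_mul_right _ (by omega)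
      exact_mod_cast (by omega : q ^ A ≤ N)
    have h4 := Real.rpow_le_rpow (by positivity) h3 (show (0 : ℝ) ≤ 1 / A by positivity)
    rw [← Real.rpow_natCast, ← Real.rpow_mul (Nat.cast_nonneg _), mul_one_div_cancel hA0.ne', Real.rpow_one] at h4
    refine h4.trans ((Real.rpow_le_rpow_of_exponent_le hNR ?_).trans hNN)
    rw [div_le_iff₀ hA0]
    rw [div_le_iff₀ hθ] at hA1
    have h5 : (A1 : ℝ) ≤ A := by exact_mod_cast (by omega : A1 ≤ A)
    nlinarith
  obtain ⟨Q, hQ⟩ : ∃ Q : Finset ℕ, Q = (Icc 1 y).filter (fun p => p.Prime ∧ ¬ p ∣ q) := ⟨_, rfl⟩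
  have hQm : ∀ p, p ∈ Q ↔ (p.Prime ∧ p ≤ y ∧ ¬ p ∣ q) := by
    intro p
    rw [hQ, mem_filter, mem_Icc]
    constructor
    · rintro ⟨⟨-, a⟩, b, c⟩; exact ⟨b, a, c⟩
    · rintro ⟨b, a, c⟩; exact ⟨⟨b.one_lt.le, a⟩, b, c⟩
  have hΩ : ∀ p ∈ Q, (zs Λ p).ncard * p ≤ r * p ^ (D + 1) := by
    intro p hp
    obtain ⟨u, hu⟩ := hadm p ((hQm p).1 hp).1
    exact zs_card ((hQm p).1 hp).1 hu
  have hV0 : VV Q (zs Λ) ≠ 0 := by
    apply VV_ne (fun p hp => ((hQm p).1 hp).1)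
    intro p hp
    obtain ⟨u, hu⟩ := hadm p ((hQm p).1 hp).1
    refine ⟨rd p u, ?_⟩
    rw [rd_zs]
    rintro ⟨i, hi⟩
    exact hu i hi
  have h3 := h1 N (by omega) Q (fun p hp => ⟨((hQm p).1 hp).1, le_trans (by exact_mod_cast ((hQm p).1 hp).2.1) (hy1.trans hNN)⟩) (zs Λ) hΩ
    q hq hqN (fun p hp => ((hQm p).1 hp).2.2) (rd q ρ)
  have h4 := h2 y (by omega) Q (fun p hp => ⟨((hQm p).1 hp).1, ((hQm p).1 hp).2.1⟩) (zs Λ) hΩ hV0
  -- the sum is at most the number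
  set T : Set (Fin (D + 1) → ℤ) := {x : Fin (D + 1) → ℤ | (∀ j, -(N : ℤ) < x j ∧ x j ≤ N ∧ (q : ℤ) ∣ x j - ρ j) ∧
        ∀ i, dot (Λ i) x ∈ S i ∧ 0 < s * dot (Λ i) x ∧ s * dot (Λ i) x ≤ N ∧ ArithmeticFunction.cardFactors (dot (Λ i) x).natAbs ≤ A} with hT
  have hTfin : T.Finite := by
    apply (Finset.finite_toSet (Pool.Agent.W36.GK.box (fun _ : Fin (D + 1) => -(N : ℤ)) (fun _ => (N : ℤ)))).subset
    intro x hx
    rw [mem_coe, mem_box]
    exact fun j => ⟨(hx.1 j).1, (hx.1 j).2.1⟩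
  have h5 : ∑ x ∈ pts Λ 0 (fun _ => s) (fun _ => 0) (fun _ => N) (fun _ => -(N : ℤ)) (fun _ => (N : ℤ)) S, sgq q (rd q ρ) Q (zs Λ) x ≤ (T.ncard : ℝ) := by
    rw [Set.ncard_eq_toFinset_card T hTfin]
    have h6 : ∑ x ∈ pts Λ 0 (fun _ => s) (fun _ => 0) (fun _ => N) (fun _ => -(N : ℤ)) (fun _ => (N : ℤ)) S, sgq q (rd q ρ) Q (zs Λ) x
        ≤ ∑ x ∈ pts Λ 0 (fun _ => s) (fun _ => 0) (fun _ => N) (fun _ => -(N : ℤ)) (fun _ => (N : ℤ)) S, (if x ∈ hTfin.toFinset then (1 : ℝ) else 0) := by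
      apply sum_le_sum
      intro x hx
      unfold pts at hx
      rw [mem_filter, mem_box] at hx
      obtain ⟨hx1, hx2⟩ := hx
      unfold sgq sg
      by_cases hc : rd q x = rd q ρ
      · by_cases hd : ∀ p ∈ Q, rd p x ∉ zs Λ p
        · rw [if_pos hc, if_pos hd, if_pos]
          rw [Set.Finite.mem_toFinset]
          have hdiv : ∀ j, (q : ℤ) ∣ x j - ρ j := by
            intro j
            have h7 := congrFun hc j
            unfold rd at h7
            rw [← ZMod.intCast_zmod_eq_zero_iff_dvd]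
            push_cast
            rw [h7, sub_self]
          refine ⟨fun j => ⟨(hx1 j).1, (hx1 j).2, hdiv j⟩, fun i => ?_⟩
          have h8 := hx2 i
          simp only [Pi.zero_apply, add_zero] at h8
          obtain ⟨g1, g2, g3⟩ := h8
          refine ⟨g1, by exact_mod_cast g2, g3, ?_⟩
          have hw0 : dot (Λ i) x ≠ 0 := by
            intro h; rw [h, mul_zero] at g2; simp at g2
          have hwN : (dot (Λ i) x).natAbs ≤ N := by
            have : |dot (Λ i) x| ≤ N := by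
              have g2' : 0 < s * dot (Λ i) x := by exact_mod_cast g2
              rcases hs with h | h
              · rw [h, one_mul] at g2' g3
                rw [abs_of_pos g2']; exact g3
              · rw [h] at g2' g3
                rw [abs_of_neg (by linarith)]; linarith
            rw [← Int.natCast_natAbs] at this
            exact_mod_cast this
          apply few_factors (by omega) hwN _ hθ hy2 hN1 (hA1.trans (by exact_mod_cast (by omega : A1 ≤ A)))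
          intro p hp hpd
          have hpd' : (p : ℤ) ∣ dot (Λ i) x := Int.natCast_dvd.2 hpd
          by_contra hcon
          have hpq : ¬ p ∣ q := by
            intro hpq
            have g4 : (p : ℤ) ∣ dot (Λ i) ρ := by
              have g5 : (q : ℤ) ∣ dot (Λ i) x - dot (Λ i) ρ := by
                rw [← dot_sub']
                unfold dot
                apply Finset.dvd_sum
                intro j _
                exact Dvd.dvd.mul_left (hdiv j) _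
              have g6 : (p : ℤ) ∣ dot (Λ i) x - dot (Λ i) ρ := dvd_trans (by exact_mod_cast hpq) g5
              have := dvd_sub hpd' g6
              simpa using this
            have g7 : (p : ℤ) ∣ 1 := by
              obtain ⟨a, b, hab⟩ := hρ i
              rw [← hab]
              exact dvd_add (Dvd.dvd.mul_left g4 _) (Dvd.dvd.mul_left (by exact_mod_cast hpq) _)
            have g8 : p ∣ 1 := by exact_mod_cast g7
            exact hp.one_lt.ne' (Nat.dvd_one.1 g8)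
          exact hd p ((hQm p).2 ⟨hp, by omega, hpq⟩) ((rd_zs Λ p x).2 ⟨i, hpd'⟩)
        · rw [if_pos hc, if_neg hd]; split_ifs <;> norm_num
      · rw [if_neg hc]; split_ifs <;> norm_num
    refine h6.trans ?_
    rw [← sum_filter, sum_const, nsmul_eq_mul, mul_one]
    have : ((pts Λ 0 (fun _ => s) (fun _ => 0) (fun _ => N) (fun _ => -(N : ℤ)) (fun _ => (N : ℤ)) S).filter (fun x => x ∈ hTfin.toFinset)).card ≤ hTfin.toFinset.card :=
      card_le_card fun x hx => (mem_filter.1 hx).2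
    exact_mod_cast this
  -- numbers
  have hL : 1 + 1 / κ' ≤ Real.log N := hx0 N (by omega)
  have hκi : 0 < 1 / κ' := by positivity
  have hL1 : 1 ≤ Real.log N := by linarith
  have hqR : (0 : ℝ) < q := by exact_mod_cast hq1
  have hVN : 1 / Real.log N ^ C ≤ VV Q (zs Λ) := by
    refine le_trans ?_ h4
    have hy0 : (1 : ℝ) < y := by exact_mod_cast (by omega : 1 < y)
    have hly : 0 < Real.log y := Real.log_pos hy0
    apply one_div_le_one_div_of_le (by positivity)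
    apply pow_le_pow_left₀ hly.le
    apply Real.log_le_log (by linarith)
    exact_mod_cast hyN
  have h6 : κ' * (1 / Real.log N ^ C / (q : ℝ) ^ (D + 1)) * (N : ℝ) ^ (D + 1) ≤ (T.ncard : ℝ) := by
    refine le_trans ?_ (h3.trans h5)
    apply mul_le_mul_of_nonneg_right _ (by positivity)
    apply mul_le_mul_of_nonneg_left _ hκ'.le
    exact div_le_div_of_nonneg_right hVN (by positivity)
  have h7 : 1 ≤ κ' * Real.log N ^ (A - C) := by
    have h8 : Real.log N ^ 1 ≤ Real.log N ^ (A - C) := pow_le_pow_right₀ hL1 (by omega)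
    rw [pow_one] at h8
    have h9 : 1 / κ' ≤ Real.log N ^ (A - C) := by linarith
    rw [div_le_iff₀ hκ'] at h9
    linarith
  calc (N : ℝ) ^ (D + 1) ≤ (κ' * Real.log N ^ (A - C)) * (N : ℝ) ^ (D + 1) := le_mul_of_one_le_left (by positivity) h7
    _ = (q : ℝ) ^ (D + 1) * Real.log N ^ A * (κ' * (1 / Real.log N ^ C / (q : ℝ) ^ (D + 1)) * (N : ℝ) ^ (D + 1)) := by
        have e : Real.log N ^ A = Real.log N ^ (A - C) * Real.log N ^ C := by rw [← pow_add]; congr 1; omega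
        rw [e]
        have : Real.log N ^ C ≠ 0 := by positivity
        field_simp
    _ ≤ (q : ℝ) ^ (D + 1) * Real.log N ^ A * (T.ncard : ℝ) := mul_le_mul_of_nonneg_left h6 (by positivity)

end Pool.Agent.W36.GS
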