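import Pool.Agent.W36.GS.S1

/-! Points of a cube in given sets of residue classes modulo several primes. -/

set_option autoImplicit false

namespace Pool.Agent.W36.GS

open Finset

open Classical in
theorem crt_count {D H : ℕ} (T : Finset ℕ) (hT : ∀ p ∈ T, p.Prime) (R : (p : ℕ) → Set (Fin D → ZMod p)) (hH : ∏ p ∈ T, p ≤ H) :
    |(((cube D H).filter (fun h => ∀ p ∈ T, rd p h ∈ R p)).card : ℝ) - (H : ℝ) ^ D * ∏ p ∈ T, (((R p).ncard : ℝ) / (p : ℝ) ^ D)| ≤
      D * 2 ^ D * (H : ℝ) ^ D * (((∏ p ∈ T, p : ℕ) : ℝ) / H) := by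
  have hNe : ∀ i : T, NeZero (i : ℕ) := fun i => ⟨(hT i i.2).ne_zero⟩
  have hcop : Pairwise (Function.onFun Nat.Coprime (fun i : T => (i : ℕ))) := by
    intro i j hij
    exact (Nat.coprime_primes (hT i i.2) (hT j j.2)).2 (fun h => hij (Subtype.ext h))
  have hq : ∏ i : T, (i : ℕ) = ∏ p ∈ T, p := Finset.prod_coe_sort T (fun p => p)
  have hq1 : 1 ≤ ∏ i : T, (i : ℕ) := by
    rw [hq]
    exact Nat.pos_of_ne_zero (prod_ne_zero_iff.2 fun p hp => (hT p hp).ne_zero)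
  set e := ZMod.prodEquivPi (fun i : T => (i : ℕ)) hcop with he
  let E : (Fin D → ZMod (∏ i : T, (i : ℕ))) ≃ (∀ i : T, Fin D → ZMod (i : ℕ)) :=
    (Equiv.piCongrRight (fun _ => e.toEquiv)).trans (Equiv.piComm _)
  have hE : ∀ h : Fin D → ℤ, ∀ i : T, E (rd (∏ i : T, (i : ℕ)) h) i = rd (i : ℕ) h := by
    intro h i
    funext j
    show e (h j : ZMod _) i = (h j : ZMod _)
    rw [he, ZMod.prodEquivPi_apply, map_intCast]
  set R' : Finset (Fin D → ZMod (∏ i : T, (i : ℕ))) := (Fintype.piFinset (fun i : T => (R i).toFinset)).map E.symm.toEmbedding with hR'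
  have hcard : (R'.card : ℝ) = ∏ p ∈ T, ((R p).ncard : ℝ) := by
    rw [hR', card_map, Fintype.card_piFinset]
    push_cast
    rw [← Finset.prod_coe_sort T (fun p => ((R p).ncard : ℝ))]
    apply prod_congr rfl
    intro i _
    rw [Set.ncard_eq_toFinset_card']
  have hmem : ∀ h : Fin D → ℤ, rd (∏ i : T, (i : ℕ)) h ∈ R' ↔ ∀ p ∈ T, rd p h ∈ R p := by
    intro h
    rw [hR', mem_map_equiv, Equiv.symm_symm, Fintype.mem_piFinset]
    constructor
    · intro h1 p hp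
      have h2 := h1 ⟨p, hp⟩
      rw [Set.mem_toFinset, hE] at h2
      exact h2
    · intro h1 i
      rw [Set.mem_toFinset, hE]
      exact h1 i i.2
  have h1 := cube_count_set (D := D) (H := H) hq1 (by rw [hq]; exact hH) R'
  have e1 : (cube D H).filter (fun h => rd (∏ i : T, (i : ℕ)) h ∈ R') = (cube D H).filter (fun h => ∀ p ∈ T, rd p h ∈ R p) :=
    filter_congr fun h _ => hmem h
  have e2 : (R'.card : ℝ) * ((H : ℝ) / ((∏ i : T, (i : ℕ) : ℕ) : ℝ)) ^ D = (H : ℝ) ^ D * ∏ p ∈ T, (((R p).ncard : ℝ) / (p : ℝ) ^ D) := by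
    rw [hcard, prod_div_distrib, prod_pow, div_pow, hq]
    push_cast
    ring
  rw [e1, e2, hq] at h1
  exact h1

end Pool.Agent.W36.GS
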