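import Pool.Agent.W36.GS.S2
import Pool.Agent.H20R2.EN.FLem
import Pool.Agent.W41.Sieve

/-! The fundamental lemma for points of a cube. -/

set_option autoImplicit false

namespace Pool.Agent.W36.GS

open Finset

/-- the density of the classes `Ω p` -/
noncomputable def dn {D : ℕ} (Ω : (p : ℕ) → Set (Fin D → ZMod p)) (p : ℕ) : ℝ := ((Ω p).ncard : ℝ) / (p : ℝ) ^ D

/-- the expected density of the sifted points -/
noncomputable def VV {D : ℕ} (P : Finset ℕ) (Ω : (p : ℕ) → Set (Fin D → ZMod p)) : ℝ := ∏ p ∈ P, (1 - dn Ω p)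

theorem ncard_le {D p : ℕ} (hp : p.Prime) (A : Set (Fin D → ZMod p)) : A.ncard ≤ p ^ D := by
  have hNe : NeZero p := ⟨hp.ne_zero⟩
  calc A.ncard ≤ (Set.univ : Set (Fin D → ZMod p)).ncard := Set.ncard_le_ncard (Set.subset_univ _) Set.finite_univ
    _ = p ^ D := by rw [Set.ncard_univ, Nat.card_eq_fintype_card, Fintype.card_fun, ZMod.card, Fintype.card_fin]

theorem dn_nonneg {D : ℕ} (Ω : (p : ℕ) → Set (Fin D → ZMod p)) (p : ℕ) : 0 ≤ dn Ω p := by
  unfold dn; positivity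

theorem dn_le_one {D : ℕ} (Ω : (p : ℕ) → Set (Fin D → ZMod p)) {p : ℕ} (hp : p.Prime) : dn Ω p ≤ 1 := by
  unfold dn
  have hp0 : (0 : ℝ) < p := by exact_mod_cast hp.pos
  rw [div_le_one (by positivity)]
  exact_mod_cast ncard_le hp (Ω p)

theorem VV_nonneg {D : ℕ} {P : Finset ℕ} (hP : ∀ p ∈ P, p.Prime) (Ω : (p : ℕ) → Set (Fin D → ZMod p)) : 0 ≤ VV P Ω :=
  prod_nonneg fun p hp => by have := dn_le_one Ω (hP p hp); linarith

theorem VV_le_one {D : ℕ} {P : Finset ℕ} (hP : ∀ p ∈ P, p.Prime) (Ω : (p : ℕ) → Set (Fin D → ZMod p)) : VV P Ω ≤ 1 :=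
  prod_le_one (fun p hp => by have := dn_le_one Ω (hP p hp); linarith) (fun p hp => by have := dn_nonneg Ω p; linarith)

theorem prod_choose (κ : ℕ) : ∀ m : ℕ, κ ≤ m → ∏ n ∈ Icc (κ + 1) m, (1 - (κ : ℝ) / n) = 1 / (m.choose κ : ℝ) := by
  intro m hm
  induction m, hm using Nat.le_induction with
  | base => simp
  | succ m hm ih =>
    rw [prod_Icc_succ_top (by omega), ih]
    have h1 := Nat.choose_mul_succ_eq m κ
    have h2 : ((m.choose κ : ℕ) : ℝ) * (m + 1) = ((m + 1).choose κ : ℕ) * (m + 1 - κ) := by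
      have e : ((m + 1 - κ : ℕ) : ℝ) = (m : ℝ) + 1 - κ := by
        rw [Nat.cast_sub (by omega)]; push_cast; ring
      rw [← e]
      exact_mod_cast h1
    have h3 : (0 : ℝ) < (m.choose κ : ℕ) := by exact_mod_cast Nat.choose_pos hm
    have h4 : (0 : ℝ) < ((m + 1).choose κ : ℕ) := by exact_mod_cast Nat.choose_pos (by omega)
    have h5 : (0 : ℝ) < (m : ℝ) + 1 := by positivity
    push_cast
    rw [div_mul_eq_mul_div, one_mul, div_eq_div_iff h3.ne' h4.ne']
    field_simp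
    linarith

/-- lower bound of the density: large primes -/
theorem VV_large {D κ y z : ℕ} (hz : κ ≤ z) {P : Finset ℕ} (hP : ∀ p ∈ P, p.Prime ∧ z < p ∧ p ≤ y)
    {Ω : (p : ℕ) → Set (Fin D → ZMod p)} (hΩ : ∀ p ∈ P, (Ω p).ncard * p ≤ κ * p ^ D) (hy : κ ≤ y) (hy1 : 1 ≤ y) :
    1 / (y : ℝ) ^ κ ≤ VV P Ω := by
  have h0 : ∏ n ∈ Icc (κ + 1) y, (1 - (κ : ℝ) / n) ≤ ∏ p ∈ P, (1 - (κ : ℝ) / p) := by
    have hsub : P ⊆ Icc (κ + 1) y := fun p hp => mem_Icc.2 ⟨by have := (hP p hp).2.1; omega, (hP p hp).2.2⟩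
    rw [← prod_sdiff hsub]
    have h2 : ∏ n ∈ Icc (κ + 1) y \ P, (1 - (κ : ℝ) / n) ≤ 1 := by
      apply prod_le_one
      · intro n hn
        have hn2 : κ + 1 ≤ n := (mem_Icc.1 (mem_sdiff.1 hn).1).1
        have hn0 : (0 : ℝ) < n := by exact_mod_cast (by omega : 0 < n)
        have : (κ : ℝ) / n ≤ 1 := by rw [div_le_one hn0]; exact_mod_cast (by omega : κ ≤ n)
        linarith
      · intro n _
        have : 0 ≤ (κ : ℝ) / n := by positivity
        linarith
    have h3 : 0 ≤ ∏ p ∈ P, (1 - (κ : ℝ) / p) := prod_nonneg fun p hp => by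
      have hn0 : (0 : ℝ) < p := by exact_mod_cast (hP p hp).1.pos
      have : (κ : ℝ) / p ≤ 1 := by rw [div_le_one hn0]; exact_mod_cast (by have := (hP p hp).2.1; omega : κ ≤ p)
      linarith
    nlinarith
  have h1 : ∏ p ∈ P, (1 - (κ : ℝ) / p) ≤ VV P Ω := by
    apply prod_le_prod
    · intro p hp
      have hn0 : (0 : ℝ) < p := by exact_mod_cast (hP p hp).1.pos
      have : (κ : ℝ) / p ≤ 1 := by rw [div_le_one hn0]; exact_mod_cast (by have := (hP p hp).2.1; omega : κ ≤ p)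
      linarith
    · intro p hp
      have hn0 : (0 : ℝ) < p := by exact_mod_cast (hP p hp).1.pos
      have : dn Ω p ≤ κ / p := by
        unfold dn
        rw [div_le_div_iff₀ (by positivity) hn0]
        exact_mod_cast hΩ p hp
      linarith
  refine le_trans ?_ (h0.trans h1)
  rw [prod_choose κ y hy]
  have h4 : (0 : ℝ) < (y.choose κ : ℕ) := by exact_mod_cast Nat.choose_pos hy
  apply one_div_le_one_div_of_le h4
  exact_mod_cast Nat.choose_le_pow y κ

/-- lower bound of the density: small primes -/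
theorem VV_small {D z : ℕ} {P : Finset ℕ} (hP : ∀ p ∈ P, p.Prime ∧ p ≤ z)
    {Ω : (p : ℕ) → Set (Fin D → ZMod p)} (h0 : VV P Ω ≠ 0) :
    1 / ((∏ p ∈ (Icc 1 z).filter Nat.Prime, p : ℕ) : ℝ) ^ D ≤ VV P Ω := by
  have h1 : ∏ p ∈ P, (1 / (p : ℝ) ^ D) ≤ VV P Ω := by
    apply prod_le_prod
    · intro p _; positivity
    · intro p hp
      have hpp := (hP p hp).1
      have hp0 : (0 : ℝ) < p := by exact_mod_cast hpp.pos
      have h2 : 1 - dn Ω p ≠ 0 := prod_ne_zero_iff.1 h0 p hp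
      have h3 : (Ω p).ncard ≠ p ^ D := by
        intro h
        apply h2
        unfold dn
        rw [h]; push_cast
        rw [div_self (by positivity)]; ring
      have h4 : (Ω p).ncard + 1 ≤ p ^ D := by
        have := ncard_le hpp (Ω p); omega
      have h5 : ((Ω p).ncard : ℝ) + 1 ≤ (p : ℝ) ^ D := by exact_mod_cast h4
      unfold dn
      rw [div_le_iff₀ (by positivity), sub_mul, one_mul, div_mul_cancel₀ _ (by positivity)]
      linarith
  refine le_trans ?_ h1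
  rw [prod_div_distrib, prod_const_one, prod_pow]
  apply one_div_le_one_div_of_le
  · apply pow_pos
    apply prod_pos
    intro p hp
    exact_mod_cast (hP p hp).1.pos
  · apply pow_le_pow_left₀ (prod_nonneg fun p _ => Nat.cast_nonneg _)
    push_cast
    apply prod_le_prod_of_subset_of_one_le
    · intro p hp
      rw [mem_filter, mem_Icc]
      exact ⟨⟨(hP p hp).1.one_lt.le, (hP p hp).2⟩, (hP p hp).1⟩
    · intro p _; exact Nat.cast_nonneg _
    · intro p hp _
      exact_mod_cast (mem_filter.1 hp).2.one_lt.le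

end Pool.Agent.W36.GS
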