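import Pool.Agent.W36.GS.S3

/-! The fundamental lemma for points of a cube. -/

set_option autoImplicit false

namespace Pool.Agent.W36.GS

open Finset Pool.Agent.W41

theorem enc_sum {α : Type} {enc : α → ℕ} (he : Function.Injective enc) (W : Finset α) (Q : ℕ → Prop) (Q' : α → Prop)
    [DecidablePred Q] [DecidablePred Q'] (h : ∀ a, Q (enc a) ↔ Q' a) :
    ∑ _m ∈ (W.image enc).filter Q, (1 : ℝ) = ((W.filter Q').card : ℝ) := by
  rw [sum_const, nsmul_eq_mul, mul_one, filter_image, card_image_of_injective _ he]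
  congr 2
  exact filter_congr fun a _ => h a

theorem exists_large (a : ℝ) : ∃ M : ℕ, a ≤ M := ⟨⌈a⌉₊, Nat.le_ceil a⟩

open Classical in
theorem fld0 (D κ : ℕ) {ε : ℝ} (hε : 0 < ε) : ∃ K y0 : ℕ, 1 ≤ K ∧ 2 ≤ y0 ∧ ∀ y : ℕ, y0 ≤ y → ∀ H : ℕ, y ^ K ≤ H →
    ∀ P : Finset ℕ, (∀ p ∈ P, p.Prime ∧ p ≤ y) → ∀ Ω : (p : ℕ) → Set (Fin D → ZMod p), (∀ p ∈ P, (Ω p).ncard * p ≤ κ * p ^ D) →
    |(((cube D H).filter (fun h => ∀ p ∈ P, rd p h ∉ Ω p)).card : ℝ) - (H : ℝ) ^ D * VV P Ω| ≤ ε * ((H : ℝ) ^ D * VV P Ω) := by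
  obtain ⟨C0, hC0, hFL⟩ := Pool.Agent.H20R2.fLem κ
  obtain ⟨b1, hb1⟩ := exists_pow_lt_of_lt_one (half_pos hε) (show (1 / 2 : ℝ) < 1 by norm_num)
  obtain ⟨b, hb⟩ : ∃ b, b = max C0 b1 := ⟨_, rfl⟩
  have hbC : C0 ≤ b := by omega
  have hbε : (1 / 2 : ℝ) ^ b ≤ ε / 2 := (pow_le_pow_of_le_one (by norm_num) (by norm_num) (by omega)).trans hb1.le
  obtain ⟨z0, hz0⟩ : ∃ z0, z0 = C0 + κ := ⟨_, rfl⟩
  obtain ⟨K0, hK0⟩ : ∃ K0 : ℕ, K0 = ∏ p ∈ (Icc 1 z0).filter Nat.Prime, p := ⟨_, rfl⟩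
  have hK01 : 1 ≤ K0 := by
    rw [hK0]
    exact Nat.pos_of_ne_zero (prod_ne_zero_iff.2 fun p hp => (mem_filter.1 hp).2.ne_zero)
  have hCb : 1 ≤ C0 * b := Nat.mul_pos hC0 (by omega)
  obtain ⟨M, hM⟩ := exists_large (4 * D * 2 ^ D * (K0 : ℝ) ^ (D + 1) / ε)
  refine ⟨4 * (C0 * b) + κ + 3, M + K0 + z0 + κ + 3, by omega, by omega, fun y hy H hH P hP Ω hΩ => ?_⟩
  have hPp : ∀ p ∈ P, p.Prime := fun p hp => (hP p hp).1
  have hy1 : 1 ≤ y := by omega
  by_cases hV0 : VV P Ω = 0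
  · -- some class set is everything
    obtain ⟨p, hp, hp0⟩ := prod_eq_zero_iff.1 hV0
    have hpp := hPp p hp
    have hNe : NeZero p := ⟨hpp.ne_zero⟩
    have hpR : (0 : ℝ) < p := by exact_mod_cast hpp.pos
    have h1 : (Ω p).ncard = p ^ D := by
      have h2 : ((Ω p).ncard : ℝ) / (p : ℝ) ^ D = 1 := by unfold dn at hp0; linarith
      rw [div_eq_one_iff_eq (by positivity)] at h2
      exact_mod_cast h2
    have h3 : Ω p = Set.univ := by
      apply Set.eq_of_subset_of_ncard_le (Set.subset_univ _) _ Set.finite_univ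
      rw [h1, Set.ncard_univ, Nat.card_eq_fintype_card, Fintype.card_fun, ZMod.card, Fintype.card_fin]
    have h4 : (cube D H).filter (fun h => ∀ p ∈ P, rd p h ∉ Ω p) = ∅ := by
      apply filter_eq_empty_iff.2
      intro h _ h5
      exact h5 p hp (by rw [h3]; trivial)
    rw [h4, hV0]
    simp
  obtain ⟨J, hJ⟩ : ∃ J, J = JJ y := ⟨_, rfl⟩
  obtain ⟨Y, hY⟩ : ∃ Y : ℕ, Y = 2 ^ 2 ^ J := ⟨_, rfl⟩
  have hyY : y < Y := by rw [hY, hJ]; exact JJ_lt y
  have hYy : Y ≤ y ^ 2 := by rw [hY, hJ]; exact JJ_le y (by omega)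
  obtain ⟨Dd, hDd⟩ : ∃ Dd : ℕ, Dd = Y ^ (C0 * b) := ⟨_, rfl⟩
  have hDy : Dd ≤ y ^ (2 * (C0 * b)) := by
    rw [hDd, pow_mul y 2]
    exact Nat.pow_le_pow_left hYy _
  have hKy : K0 * y ^ (2 * (C0 * b)) ≤ H := by
    calc K0 * y ^ (2 * (C0 * b)) ≤ y * y ^ (2 * (C0 * b)) := Nat.mul_le_mul_right _ (by omega)
      _ = y ^ (2 * (C0 * b) + 1) := by rw [pow_succ, mul_comm]
      _ ≤ y ^ (4 * (C0 * b) + κ + 3) := Nat.pow_le_pow_right hy1 (by omega)
      _ ≤ H := hH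
  have hH1 : 1 ≤ H := le_trans (Nat.one_le_pow _ _ hy1) hH
  have hHR : (0 : ℝ) < H := by exact_mod_cast hH1
  set P0 : Finset ℕ := P.filter (fun p => p ≤ z0) with hP0
  set P1 : Finset ℕ := P.filter (fun p => ¬ p ≤ z0) with hP1
  have hPu : P = P0 ∪ P1 := (filter_union_filter_not_eq _ _).symm
  have hdisj : Disjoint P0 P1 := disjoint_filter_filter_not _ _ _
  have hPp1 : ∀ p ∈ P1, p.Prime ∧ z0 < p ∧ p ≤ y := by
    intro p hp
    rw [hP1, mem_filter] at hp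
    exact ⟨hPp p hp.1, by omega, (hP p hp.1).2⟩
  have hPp0 : ∀ p ∈ P0, p.Prime ∧ p ≤ z0 := by
    intro p hp
    rw [hP0, mem_filter] at hp
    exact ⟨hPp p hp.1, hp.2⟩
  have hVV : VV P Ω = VV P0 Ω * VV P1 Ω := by
    unfold VV
    conv_lhs => rw [hPu]
    rw [prod_union hdisj]
  have hV00 : VV P0 Ω ≠ 0 := fun h => hV0 (by rw [hVV, h, zero_mul])
  have hV0n : 0 ≤ VV P0 Ω := VV_nonneg (fun p hp => (hPp0 p hp).1) Ω
  have hVl : 1 / (y : ℝ) ^ κ ≤ VV P1 Ω := VV_large (z := z0) (by omega) hPp1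
    (fun p hp => hΩ p (mem_filter.1 hp).1) (by omega) hy1
  have hVs : 1 / (K0 : ℝ) ^ D ≤ VV P0 Ω := by
    rw [hK0]
    exact VV_small hPp0 hV00
  have hyR : (0 : ℝ) < y := by exact_mod_cast hy1
  have hK0R : (0 : ℝ) < K0 := by exact_mod_cast hK01
  have hVlow : 1 / ((K0 : ℝ) ^ D * (y : ℝ) ^ κ) ≤ VV P Ω := by
    rw [hVV, one_div, mul_inv, ← one_div, ← one_div]
    exact mul_le_mul hVs hVl (by positivity) hV0n
  obtain ⟨enc, henc⟩ := exists_injective_nat (Fin D → ℤ)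
  set W : Finset (Fin D → ℤ) := (cube D H).filter (fun h => ∀ p ∈ P0, rd p h ∉ Ω p) with hW
  have key := hFL b J z0 P1 (dn Ω) hbC (by omega) (fun p hp => ⟨(hPp1 p hp).1, (hPp1 p hp).2.1, by
      rw [← hY]; exact (hPp1 p hp).2.2.trans hyY.le⟩) (fun p hp => by
      have hp0 : (0 : ℝ) < p := by exact_mod_cast (hPp1 p hp).1.pos
      have hp1 : (1 : ℝ) < p := by exact_mod_cast (hPp1 p hp).1.one_lt
      refine ⟨dn_nonneg Ω p, ?_⟩
      have h1 : dn Ω p ≤ κ / p := by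
        unfold dn
        rw [div_le_div_iff₀ (by positivity) hp0]
        exact_mod_cast hΩ p (mem_filter.1 hp).1
      refine h1.trans ?_
      apply div_le_div_of_nonneg_left (Nat.cast_nonneg _) (by linarith) (by linarith))
    (W.image enc) (fun _ => (1 : ℝ)) (fun p m => ∃ h : Fin D → ℤ, enc h = m ∧ rd p h ∈ Ω p) ((H : ℝ) ^ D * VV P0 Ω)
    (fun T => D * 2 ^ D * (H : ℝ) ^ D * (((K0 * Dd : ℕ) : ℝ) / H))
    (fun _ _ => zero_le_one) (by positivity) (by
      intro T hT hTD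
      have hTp : ∀ p ∈ T, p.Prime := fun p hp => (hPp1 p (hT hp)).1
      have hdT : Disjoint P0 T := disjoint_of_subset_right hT hdisj
      have hTz : ∀ p ∈ T, ¬ p ≤ z0 := fun p hp => by have := (hPp1 p (hT hp)).2.1; omega
      have hprod : ∏ p ∈ P0 ∪ T, p ≤ K0 * Dd := by
        rw [prod_union hdT]
        apply Nat.mul_le_mul
        · rw [hK0]
          apply prod_le_prod_of_subset_of_one_le'
          · intro p hp
            rw [mem_filter, mem_Icc]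
            exact ⟨⟨(hPp0 p hp).1.one_lt.le, (hPp0 p hp).2⟩, (hPp0 p hp).1⟩
          · intro p hp _
            exact (mem_filter.1 hp).2.one_lt.le
        · rw [hDd, hY]; exact hTD
      have h3 := crt_count (H := H) (P0 ∪ T) (fun p hp => by
        rcases mem_union.1 hp with h | h
        · exact (hPp0 p h).1
        · exact hTp p h) (fun p => if p ≤ z0 then (Ω p)ᶜ else Ω p) (hprod.trans ((Nat.mul_le_mul_left _ hDy).trans hKy))
      rw [prod_union hdT] at h3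
      have e1 : ∏ p ∈ P0, (((if p ≤ z0 then (Ω p)ᶜ else Ω p).ncard : ℝ) / (p : ℝ) ^ D) = VV P0 Ω := by
        unfold VV
        apply prod_congr rfl
        intro p hp
        have hpp := (hPp0 p hp).1
        have hNe : NeZero p := ⟨hpp.ne_zero⟩
        have hp0 : (0 : ℝ) < p := by exact_mod_cast hpp.pos
        rw [if_pos (hPp0 p hp).2]
        have h4 := Set.ncard_add_ncard_compl (Ω p)
        rw [Nat.card_eq_fintype_card, Fintype.card_fun, ZMod.card, Fintype.card_fin] at h4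
        have h5 : ((Ω p).ncard : ℝ) + ((Ω p)ᶜ.ncard : ℝ) = (p : ℝ) ^ D := by exact_mod_cast h4
        unfold dn
        rw [← h5]
        have h6 : ((Ω p).ncard : ℝ) + ((Ω p)ᶜ.ncard : ℝ) ≠ 0 := by rw [h5]; positivity
        field_simp
        ring
      have e2 : ∏ p ∈ T, (((if p ≤ z0 then (Ω p)ᶜ else Ω p).ncard : ℝ) / (p : ℝ) ^ D) = ∏ p ∈ T, dn Ω p := by
        apply prod_congr rfl
        intro p hp
        rw [if_neg (hTz p hp)]
        rfl
      rw [e1, e2, ← mul_assoc] at h3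
      have e5 : ∑ m ∈ (W.image enc).filter (fun m => ∀ p ∈ T, ∃ h : Fin D → ℤ, enc h = m ∧ rd p h ∈ Ω p), (1 : ℝ) =
          (((cube D H).filter (fun h => ∀ p ∈ P0 ∪ T, rd p h ∈ (if p ≤ z0 then (Ω p)ᶜ else Ω p))).card : ℝ) := by
        rw [enc_sum henc W _ (fun h => ∀ p ∈ T, rd p h ∈ Ω p) (by
          intro a
          constructor
          · intro h p hp
            obtain ⟨a', ha', h5⟩ := h p hp
            rw [henc ha'] at h5
            exact h5
          · intro h p hp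
            exact ⟨a, rfl, h p hp⟩)]
        rw [hW, filter_filter]
        congr 2
        apply filter_congr
        intro h _
        constructor
        · rintro ⟨h5, h6⟩ p hp
          rcases mem_union.1 hp with h7 | h7
          · rw [if_pos (hPp0 p h7).2]
            exact h5 p h7
          · rw [if_neg (hTz p h7)]
            exact h6 p h7
        · intro h5
          constructor
          · intro p hp
            have h8 := h5 p (mem_union_left _ hp)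
            rwa [if_pos (hPp0 p hp).2] at h8
          · intro p hp
            have h8 := h5 p (mem_union_right _ hp)
            rwa [if_neg (hTz p hp)] at h8
      have h6 : ((D : ℝ) * 2 ^ D * (H : ℝ) ^ D * (((∏ p ∈ P0 ∪ T, p : ℕ) : ℝ) / H)) ≤ D * 2 ^ D * (H : ℝ) ^ D * (((K0 * Dd : ℕ) : ℝ) / H) := by
        apply mul_le_mul_of_nonneg_left _ (by positivity)
        apply div_le_div_of_nonneg_right _ hHR.le
        exact_mod_cast hprod
      refine le_trans (le_of_eq ?_) (h3.trans h6)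
      congr 2)
  have f1 : ∑ m ∈ (W.image enc).filter (fun m => ∀ p ∈ P1, ¬ ∃ h : Fin D → ℤ, enc h = m ∧ rd p h ∈ Ω p), (1 : ℝ) =
      (((cube D H).filter (fun h => ∀ p ∈ P, rd p h ∉ Ω p)).card : ℝ) := by
    rw [enc_sum henc W _ (fun h => ∀ p ∈ P1, rd p h ∉ Ω p) (by
      intro a
      constructor
      · intro h p hp h5
        exact h p hp ⟨a, rfl, h5⟩
      · rintro h p hp ⟨a', ha', h5⟩
        rw [henc ha'] at h5
        exact h p hp h5)]
    rw [hW, filter_filter]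
    congr 2
    apply filter_congr
    intro h _
    conv_rhs => rw [hPu]
    constructor
    · rintro ⟨h5, h6⟩ p hp
      rcases mem_union.1 hp with h | h
      · exact h5 p h
      · exact h6 p h
    · intro h
      exact ⟨fun p hp => h p (mem_union_left _ hp), fun p hp => h p (mem_union_right _ hp)⟩
  have f2 : (H : ℝ) ^ D * VV P0 Ω * ∏ p ∈ P1, (1 - dn Ω p) = (H : ℝ) ^ D * VV P Ω := by
    rw [hVV, mul_assoc]; rfl
  rw [f2] at key
  have key2 : |(((cube D H).filter (fun h => ∀ p ∈ P, rd p h ∉ Ω p)).card : ℝ) - (H : ℝ) ^ D * VV P Ω| ≤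
      (1 / 2 : ℝ) ^ b * ((H : ℝ) ^ D * VV P Ω) + ((J : ℝ) + 2) *
        ∑ T ∈ P1.powerset.filter (fun T : Finset ℕ => ∏ p ∈ T, p ≤ (2 ^ 2 ^ J) ^ (C0 * b)), (D * 2 ^ D * (H : ℝ) ^ D * (((K0 * Dd : ℕ) : ℝ) / H)) := by
    rw [← f1]
    refine le_trans (le_of_eq ?_) key
    congr 2
  refine key2.trans ?_
  have hVP := VV_nonneg hPp Ω
  have hM0 : 0 ≤ (H : ℝ) ^ D * VV P Ω := mul_nonneg (by positivity) hVP
  have hcard : (P1.powerset.filter (fun T : Finset ℕ => ∏ p ∈ T, p ≤ Dd)).card ≤ Dd := by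
    calc _ ≤ (Icc 1 Dd).card := by
          apply card_le_card_of_injOn (fun T : Finset ℕ => ∏ p ∈ T, p)
          · intro T hT
            rw [mem_coe, mem_filter, mem_powerset] at hT
            have h5 : 1 ≤ ∏ p ∈ T, p := Nat.pos_of_ne_zero (prod_ne_zero_iff.2 fun p hp => (hPp1 p (hT.1 hp)).1.ne_zero)
            exact mem_coe.2 (mem_Icc.2 ⟨h5, hT.2⟩)
          · intro S hS S' hS' h
            rw [mem_coe, mem_filter, mem_powerset] at hS hS'
            have hSp : ∀ p ∈ S, p.Prime := fun p hp => (hPp1 p (hS.1 hp)).1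
            have hSp' : ∀ p ∈ S', p.Prime := fun p hp => (hPp1 p (hS'.1 hp)).1
            simp only at h
            ext p
            constructor
            · intro hp
              have h1 : p ∣ ∏ p ∈ S', p := h ▸ dvd_prod_of_mem _ hp
              obtain ⟨p', hp', hd⟩ := (Nat.Prime.prime (hSp p hp)).exists_mem_finset_dvd h1
              rw [Nat.prime_dvd_prime_iff_eq (hSp p hp) (hSp' p' hp')] at hd
              exact hd ▸ hp'
            · intro hp
              have h1 : p ∣ ∏ p ∈ S, p := h ▸ dvd_prod_of_mem _ hp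
              obtain ⟨p', hp', hd⟩ := (Nat.Prime.prime (hSp' p hp)).exists_mem_finset_dvd h1
              rw [Nat.prime_dvd_prime_iff_eq (hSp' p hp) (hSp p' hp')] at hd
              exact hd ▸ hp'
      _ = Dd := by simp
  -- the error
  have hmain : ((J : ℝ) + 2) * ∑ T ∈ P1.powerset.filter (fun T : Finset ℕ => ∏ p ∈ T, p ≤ (2 ^ 2 ^ J) ^ (C0 * b)),
      (D * 2 ^ D * (H : ℝ) ^ D * (((K0 * Dd : ℕ) : ℝ) / H)) ≤ ε / 2 * ((H : ℝ) ^ D * VV P Ω) := by
    rw [sum_const, nsmul_eq_mul]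
    have g1 : ((J : ℝ) + 2) ≤ 2 * y := by rw [hJ]; exact_mod_cast JJ_small y (by omega)
    have g2 : (((P1.powerset.filter (fun T : Finset ℕ => ∏ p ∈ T, p ≤ (2 ^ 2 ^ J) ^ (C0 * b))).card : ℕ) : ℝ) ≤ Dd := by
      have := hcard
      rw [hDd, hY] at this
      rw [hDd, hY]
      exact_mod_cast this
    have g3 : (Dd : ℝ) ≤ (y : ℝ) ^ (2 * (C0 * b)) := by exact_mod_cast hDy
    have g4 : 4 * D * 2 ^ D * (K0 : ℝ) ^ (D + 1) ≤ ε * y := by
      have h1 : 4 * D * 2 ^ D * (K0 : ℝ) ^ (D + 1) / ε ≤ y := hM.trans (by exact_mod_cast (by omega : M ≤ y))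
      rw [div_le_iff₀ hε] at h1
      linarith
    have g5 : (y : ℝ) ^ (4 * (C0 * b) + κ + 3) ≤ H := by exact_mod_cast hH
    have hy1R : (1 : ℝ) ≤ y := by exact_mod_cast hy1
    have g6 : 0 ≤ (D * 2 ^ D * (H : ℝ) ^ D * (((K0 * Dd : ℕ) : ℝ) / H)) := by positivity
    calc ((J : ℝ) + 2) * ((((P1.powerset.filter (fun T : Finset ℕ => ∏ p ∈ T, p ≤ (2 ^ 2 ^ J) ^ (C0 * b))).card : ℕ) : ℝ) *
          (D * 2 ^ D * (H : ℝ) ^ D * (((K0 * Dd : ℕ) : ℝ) / H)))
        ≤ (2 * y) * ((Dd : ℝ) * (D * 2 ^ D * (H : ℝ) ^ D * (((K0 * Dd : ℕ) : ℝ) / H))) := by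
          apply mul_le_mul g1 _ (mul_nonneg (Nat.cast_nonneg _) g6) (mul_nonneg (by norm_num) hyR.le)
          exact mul_le_mul_of_nonneg_right g2 g6
      _ = (Dd : ℝ) * Dd * (2 * y * D * 2 ^ D * K0 * ((H : ℝ) ^ D / H)) := by push_cast; ring
      _ ≤ (y : ℝ) ^ (2 * (C0 * b)) * (y : ℝ) ^ (2 * (C0 * b)) * (2 * y * D * 2 ^ D * K0 * ((H : ℝ) ^ D / H)) := by
          apply mul_le_mul_of_nonneg_right _ (by positivity)
          exact mul_le_mul g3 g3 (Nat.cast_nonneg _) (by positivity)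
      _ = (4 * D * 2 ^ D * (K0 : ℝ) ^ (D + 1)) * ((y : ℝ) ^ (4 * (C0 * b)) * y / 2 * ((H : ℝ) ^ D / H) * (1 / (K0 : ℝ) ^ D)) := by
          rw [show 4 * (C0 * b) = 2 * (C0 * b) + 2 * (C0 * b) by ring, pow_add, pow_succ (K0 : ℝ)]
          field_simp
          ring
      _ ≤ (ε * y) * ((y : ℝ) ^ (4 * (C0 * b)) * y / 2 * ((H : ℝ) ^ D / H) * (1 / (K0 : ℝ) ^ D)) :=
          mul_le_mul_of_nonneg_right g4 (by positivity)
      _ = ε / 2 * ((H : ℝ) ^ D * (((y : ℝ) ^ (4 * (C0 * b) + κ + 2) / H) * (1 / ((K0 : ℝ) ^ D * (y : ℝ) ^ κ)))) := by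
          rw [show 4 * (C0 * b) + κ + 2 = 4 * (C0 * b) + κ + 1 + 1 by ring, pow_succ, pow_succ, pow_add]
          field_simp
      _ ≤ ε / 2 * ((H : ℝ) ^ D * (1 * VV P Ω)) := by
          apply mul_le_mul_of_nonneg_left _ (by positivity)
          apply mul_le_mul_of_nonneg_left _ (by positivity)
          apply mul_le_mul _ hVlow (by positivity) zero_le_one
          rw [div_le_one hHR]
          exact (pow_le_pow_right₀ hy1R (by omega)).trans g5
      _ = ε / 2 * ((H : ℝ) ^ D * VV P Ω) := by rw [one_mul]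
  calc _ ≤ ε / 2 * ((H : ℝ) ^ D * VV P Ω) + ε / 2 * ((H : ℝ) ^ D * VV P Ω) :=
        add_le_add (mul_le_mul_of_nonneg_right hbε hM0) hmain
    _ = ε * ((H : ℝ) ^ D * VV P Ω) := by ring

end Pool.Agent.W36.GS
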