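import Pool.Agent.W36.GS.S4

/-! Averages of the indicator function of the sifted points over cubes. -/

set_option autoImplicit false

namespace Pool.Agent.W36.GS

open Finset

/-- the indicator function of the sifted points -/
noncomputable def sg {D : ℕ} (P : Finset ℕ) (Ω : (p : ℕ) → Set (Fin D → ZMod p)) (x : Fin D → ℤ) : ℝ := by
  classical exact if ∀ p ∈ P, rd p x ∉ Ω p then 1 else 0

theorem sg_nonneg {D : ℕ} (P : Finset ℕ) (Ω : (p : ℕ) → Set (Fin D → ZMod p)) (x : Fin D → ℤ) : 0 ≤ sg P Ω x := by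
  unfold sg; split_ifs <;> norm_num

theorem sg_le_one {D : ℕ} (P : Finset ℕ) (Ω : (p : ℕ) → Set (Fin D → ZMod p)) (x : Fin D → ℤ) : sg P Ω x ≤ 1 := by
  unfold sg; split_ifs <;> norm_num

/-- the fundamental lemma for the points `x + m h` -/
theorem fld (D κ : ℕ) {ε : ℝ} (hε : 0 < ε) : ∃ K y0 : ℕ, 1 ≤ K ∧ 2 ≤ y0 ∧ ∀ y : ℕ, y0 ≤ y → ∀ H : ℕ, y ^ K ≤ H →
    ∀ P : Finset ℕ, (∀ p ∈ P, p.Prime ∧ p ≤ y) → ∀ Ω : (p : ℕ) → Set (Fin D → ZMod p), (∀ p ∈ P, (Ω p).ncard * p ≤ κ * p ^ D) →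
    ∀ m : ℤ, (∀ p ∈ P, ¬ (p : ℤ) ∣ m) → ∀ x : Fin D → ℤ,
    |∑ h ∈ cube D H, sg P Ω (x + m • h) - (H : ℝ) ^ D * VV P Ω| ≤ ε * ((H : ℝ) ^ D * VV P Ω) := by
  classical
  obtain ⟨K, y0, hK, hy0, h⟩ := fld0 D κ hε
  refine ⟨K, y0, hK, hy0, fun y hy H hH P hP Ω hΩ m hm x => ?_⟩
  set Ω' : (p : ℕ) → Set (Fin D → ZMod p) := fun p => (fun r : Fin D → ZMod p => fun j => (x j : ZMod p) + (m : ZMod p) * r j) ⁻¹' Ω p with hΩ'
  have hcard : ∀ p ∈ P, (Ω' p).ncard = (Ω p).ncard := by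
    intro p hp
    have hpp := (hP p hp).1
    have hNe : NeZero p := ⟨hpp.ne_zero⟩
    have hF : Fact p.Prime := ⟨hpp⟩
    have hm0 : (m : ZMod p) ≠ 0 := by
      rw [Ne, ZMod.intCast_zmod_eq_zero_iff_dvd]
      exact hm p hp
    have hinj : Function.Injective (fun r : Fin D → ZMod p => fun j => (x j : ZMod p) + (m : ZMod p) * r j) := by
      intro r r' hrr
      ext j
      have h1 := congrFun hrr j
      simp only at h1
      have h2 := add_left_cancel h1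
      exact mul_left_cancel₀ hm0 h2
    have hsurj := Finite.surjective_of_injective hinj
    exact Set.ncard_preimage_of_injective_subset_range hinj (by rw [hsurj.range_eq]; exact Set.subset_univ _)
  have h1 := h y hy H hH P hP Ω' (fun p hp => by rw [hcard p hp]; exact hΩ p hp)
  have e1 : VV P Ω' = VV P Ω := by
    unfold VV dn
    apply prod_congr rfl
    intro p hp
    rw [hcard p hp]
  have e2 : ∑ h ∈ cube D H, sg P Ω (x + m • h) = (((cube D H).filter (fun h => ∀ p ∈ P, rd p h ∉ Ω' p)).card : ℝ) := by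
    rw [card_filter]
    push_cast
    apply sum_congr rfl
    intro h _
    unfold sg
    have e3 : (∀ p ∈ P, rd p (x + m • h) ∉ Ω p) ↔ ∀ p ∈ P, rd p h ∉ Ω' p := by
      apply forall₂_congr
      intro p _
      rw [hΩ', Set.mem_preimage]
      have e4 : rd p (x + m • h) = fun j => (x j : ZMod p) + (m : ZMod p) * rd p h j := by
        funext j
        unfold rd
        simp only [Pi.add_apply, Pi.smul_apply, smul_eq_mul]
        push_cast
        rfl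
      rw [e4]
    simp only [e3]
  rw [e2, ← e1]
  exact h1

theorem avg_le {D : ℕ} {s : (Fin D → ℤ) → ℝ} (hs : ∀ x, 0 ≤ s x) (T E E' : Finset (Fin D → ℤ))
    (hE : ∀ x ∈ E, ∀ h ∈ T, x - h ∈ E') {C : ℝ} (hC : ∀ y, ∑ h ∈ T, s (y + h) ≤ C) :
    T.card * ∑ x ∈ E, s x ≤ C * E'.card := by
  classical
  have h1 : ∀ h ∈ T, ∑ x ∈ E, s x ≤ ∑ y ∈ E', s (y + h) := by
    intro h hh
    have h2 : ∑ x ∈ E, s x = ∑ y ∈ E.image (fun x => x - h), s (y + h) := by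
      rw [sum_image (fun x _ x' _ h3 => by simpa using h3)]
      apply sum_congr rfl
      intro x _
      rw [sub_add_cancel]
    rw [h2]
    apply sum_le_sum_of_subset_of_nonneg
    · intro y hy
      obtain ⟨x, hx, rfl⟩ := mem_image.1 hy
      exact hE x hx h hh
    · intro y _ _; exact hs _
  calc T.card * ∑ x ∈ E, s x = ∑ h ∈ T, ∑ x ∈ E, s x := by rw [sum_const, nsmul_eq_mul]
    _ ≤ ∑ h ∈ T, ∑ y ∈ E', s (y + h) := sum_le_sum h1
    _ = ∑ y ∈ E', ∑ h ∈ T, s (y + h) := sum_comm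
    _ ≤ ∑ y ∈ E', C := sum_le_sum fun y _ => hC y
    _ = C * E'.card := by rw [sum_const, nsmul_eq_mul, mul_comm]

theorem shift_bad {D : ℕ} {s : (Fin D → ℤ) → ℝ} (hs : ∀ x, 0 ≤ s x) (E B : Finset (Fin D → ℤ)) (h : Fin D → ℤ)
    (hB : ∀ x, ¬ (x ∈ E ↔ x - h ∈ E) → x ∈ B) : |∑ x ∈ E, s x - ∑ x ∈ E, s (x + h)| ≤ ∑ x ∈ B, s x := by
  classical
  set E' : Finset (Fin D → ℤ) := E.image (fun x => x + h) with hE'
  have hmem : ∀ x, x ∈ E' ↔ x - h ∈ E := by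
    intro x
    rw [hE', mem_image]
    constructor
    · rintro ⟨y, hy, rfl⟩
      rwa [add_sub_cancel_right]
    · intro h1
      exact ⟨x - h, h1, sub_add_cancel _ _⟩
  have h2 : ∑ x ∈ E, s (x + h) = ∑ x ∈ E', s x := by
    rw [hE', sum_image (fun x _ x' _ h3 => by simpa using h3)]
  rw [h2]
  have h3 : ∑ x ∈ E, s x - ∑ x ∈ E', s x = ∑ x ∈ E \ E', s x - ∑ x ∈ E' \ E, s x := by
    have a1 : ∑ x ∈ E \ E', s x - ∑ x ∈ E' \ E, s x = ∑ x ∈ E, s x - ∑ x ∈ E', s x := by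
      rw [← sum_inter_add_sum_sdiff E E' s, ← sum_inter_add_sum_sdiff E' E s, inter_comm E' E]; ring
    linarith
  have h4 : ∑ x ∈ E \ E', s x ≤ ∑ x ∈ B, s x := by
    apply sum_le_sum_of_subset_of_nonneg
    · intro x hx
      rw [mem_sdiff, hmem] at hx
      exact hB x (fun h5 => hx.2 (h5.1 hx.1))
    · intro y _ _; exact hs _
  have h5 : ∑ x ∈ E' \ E, s x ≤ ∑ x ∈ B, s x := by
    apply sum_le_sum_of_subset_of_nonneg
    · intro x hx
      rw [mem_sdiff, hmem] at hx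
      exact hB x (fun h5 => hx.2 (h5.2 hx.1))
    · intro y _ _; exact hs _
  have h6 : 0 ≤ ∑ x ∈ E \ E', s x := sum_nonneg fun x _ => hs x
  have h7 : 0 ≤ ∑ x ∈ E' \ E, s x := sum_nonneg fun x _ => hs x
  rw [h3, abs_le]
  constructor <;> linarith

theorem avg_main {D : ℕ} {s : (Fin D → ℤ) → ℝ} (T E : Finset (Fin D → ℤ)) {A B C : ℝ}
    (hC : ∀ y, |∑ h ∈ T, s (y + h) - A| ≤ B) (hErr : ∀ h ∈ T, |∑ x ∈ E, s x - ∑ x ∈ E, s (x + h)| ≤ C) :
    |T.card * ∑ x ∈ E, s x - A * E.card| ≤ B * E.card + T.card * C := by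
  have h1 : |T.card * ∑ x ∈ E, s x - ∑ h ∈ T, ∑ x ∈ E, s (x + h)| ≤ T.card * C := by
    have e1 : T.card * ∑ x ∈ E, s x = ∑ h ∈ T, ∑ x ∈ E, s x := by rw [sum_const, nsmul_eq_mul]
    rw [e1, ← sum_sub_distrib]
    refine (abs_sum_le_sum_abs _ _).trans ((sum_le_sum hErr).trans (le_of_eq ?_))
    rw [sum_const, nsmul_eq_mul]
  have h2 : |∑ h ∈ T, ∑ x ∈ E, s (x + h) - A * E.card| ≤ B * E.card := by
    have e1 : A * E.card = ∑ x ∈ E, A := by rw [sum_const, nsmul_eq_mul, mul_comm]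
    rw [sum_comm, e1, ← sum_sub_distrib]
    refine (abs_sum_le_sum_abs _ _).trans ((sum_le_sum fun x _ => hC x).trans (le_of_eq ?_))
    rw [sum_const, nsmul_eq_mul, mul_comm]
  have := abs_sub_le (T.card * ∑ x ∈ E, s x) (∑ h ∈ T, ∑ x ∈ E, s (x + h)) (A * E.card)
  linarith

end Pool.Agent.W36.GS
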