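import Pool.Agent.W36.GS.S5
import Pool.Agent.W36.GK.K20
import Pool.Agent.W41.Core2

/-! Upper bounds for the number of the sifted points with conditions on the value of a linear form. -/

set_option autoImplicit false

namespace Pool.Agent.W36.GS

open Finset Pool.Agent.W36.GK Pool.Agent.H499R2.CO

open Classical in
theorem fib {D X : ℕ} {P P' : Fin (D + 1) → ℤ} (hP : ∀ j, P' j - P j ≤ X) {a : Fin (D + 1) → ℤ} (ha : a ≠ 0) (Y : Finset ℤ) :
    ((box P P').filter (fun x => dot a x ∈ Y)).card ≤ Y.card * X ^ D := by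
  rw [card_eq_sum_card_fiberwise (f := fun x => dot a x) (t := Y) (by
    intro h hh
    rw [mem_coe, mem_filter] at hh
    exact hh.2)]
  calc _ ≤ ∑ y ∈ Y, X ^ D := by
        apply sum_le_sum
        intro y hy
        refine le_trans (card_le_card ?_) (box_fiber hP ha y)
        intro x hx
        rw [mem_filter, mem_filter] at hx
        rw [mem_filter]
        exact ⟨hx.1.1, hx.2⟩
    _ = Y.card * X ^ D := by rw [sum_const, smul_eq_mul]

/-- the sum of the absolute values of the coefficients -/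
def sz {D : ℕ} (a : Fin D → ℤ) : ℤ := ∑ j, |a j|

theorem sz_nonneg {D : ℕ} (a : Fin D → ℤ) : 0 ≤ sz a := sum_nonneg fun _ _ => abs_nonneg _

theorem dot_smul' {D : ℕ} (a h : Fin D → ℤ) (m : ℤ) : dot a (m • h) = m * dot a h := by
  unfold dot
  rw [mul_sum]
  apply sum_congr rfl
  intro j _
  simp only [Pi.smul_apply, smul_eq_mul]
  ring

theorem dot_sub' {D : ℕ} (a x h : Fin D → ℤ) : dot a (x - h) = dot a x - dot a h := by
  unfold dot
  rw [← sum_sub_distrib]
  apply sum_congr rfl
  intro j _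
  simp only [Pi.sub_apply]
  ring

theorem dot_cube {D H : ℕ} (a : Fin D → ℤ) {h : Fin D → ℤ} (hh : h ∈ cube D H) : |dot a h| ≤ sz a * H := by
  rw [mem_cube] at hh
  exact dot_abs a h (fun j => by rw [abs_of_nonneg (hh j).1]; exact (hh j).2.le)

theorem box_sub {D H : ℕ} {P P' : Fin D → ℤ} {m : ℕ} {x h : Fin D → ℤ} (hx : x ∈ box P P') (hh : h ∈ cube D H) :
    x - (m : ℤ) • h ∈ box (fun j => P j - m * H) P' := by
  rw [mem_box] at hx ⊢
  rw [mem_cube] at hh
  intro j
  have h1 := hx j
  have h2 := hh j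
  simp only [Pi.sub_apply, Pi.smul_apply, smul_eq_mul]
  have h3 : (m : ℤ) * h j ≤ m * H := mul_le_mul_of_nonneg_left h2.2.le (Int.natCast_nonneg m)
  have h4 : (0 : ℤ) ≤ m * h j := mul_nonneg (Int.natCast_nonneg m) h2.1
  constructor
  · linarith [h1.1]
  · linarith [h1.2]

open Classical in
/-- points at which a form has a value in a short interval -/
theorem ub1 {D H X : ℕ} {s : (Fin (D + 1) → ℤ) → ℝ} (hs : ∀ x, 0 ≤ s x) {C : ℝ} (hC0 : 0 ≤ C)
    (hC : ∀ y, ∑ h ∈ cube (D + 1) H, s (y + h) ≤ C) {P P' : Fin (D + 1) → ℤ} (hP : ∀ j, P' j - P j + H ≤ X)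
    {a : Fin (D + 1) → ℤ} (ha : a ≠ 0) {u v : ℤ} (huv : u ≤ v) :
    (H : ℝ) ^ (D + 1) * ∑ x ∈ (box P P').filter (fun x => u ≤ dot a x ∧ dot a x ≤ v), s x ≤
      C * (((v - u + 1 + 2 * (sz a * H) : ℤ) : ℝ) * (X : ℝ) ^ D) := by
  have h1 := avg_le hs (cube (D + 1) H) ((box P P').filter (fun x => u ≤ dot a x ∧ dot a x ≤ v))
    ((box (fun j => P j - (1 : ℕ) * H) P').filter (fun x => dot a x ∈ Icc (u - sz a * H) (v + sz a * H))) (by
      intro x hx h hh
      rw [mem_filter] at hx
      rw [mem_filter, mem_Icc]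
      have h2 := box_sub (m := 1) hx.1 hh
      have e : x - ((1 : ℕ) : ℤ) • h = x - h := by
        ext j; simp
      rw [e] at h2
      refine ⟨h2, ?_⟩
      rw [dot_sub']
      have h3 := abs_le.1 (dot_cube a hh)
      constructor <;> linarith [hx.2.1, hx.2.2, h3.1, h3.2]) hC
  rw [card_cube] at h1
  push_cast at h1
  refine h1.trans ?_
  apply mul_le_mul_of_nonneg_left _ hC0
  have h2 := fib (X := X) (P := fun j => P j - (1 : ℕ) * H) (P' := P') (by
    intro j
    have := hP j
    push_cast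
    linarith) ha (Icc (u - sz a * H) (v + sz a * H))
  have h3 : ((Icc (u - sz a * H) (v + sz a * H)).card : ℤ) = v - u + 1 + 2 * (sz a * H) := by
    rw [Int.card_Icc]
    have h4 : 0 ≤ sz a * (H : ℤ) := mul_nonneg (sz_nonneg a) (Int.natCast_nonneg H)
    rw [Int.toNat_of_nonneg (by linarith)]
    ring
  have h5 : ((((box (fun j => P j - (1 : ℕ) * H) P').filter (fun x => dot a x ∈ Icc (u - sz a * H) (v + sz a * H))).card : ℕ) : ℝ)
      ≤ ((Icc (u - sz a * H) (v + sz a * H)).card : ℝ) * (X : ℝ) ^ D := by exact_mod_cast h2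
  have h6 : ((Icc (u - sz a * H) (v + sz a * H)).card : ℝ) = ((v - u + 1 + 2 * (sz a * H) : ℤ) : ℝ) := by
    rw [← h3]; push_cast; rfl
  rw [h6] at h5
  push_cast at h5 ⊢
  exact h5

open Classical in
/-- the number of the survivors in an interval -/
theorem surv_int (k : ℕ) (st : ℕ × ℤ) (c u : ℤ) : ∀ m : ℕ,
    (((Ico u (u + m * 2 ^ k)).filter (fun t => surv 1 k st (t + c))).card : ℝ) = m * (2 ^ k * q step (0, 0) k st) := by
  intro m
  induction m with
  | zero => simp
  | succ m ih =>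
    have h0 : (0 : ℤ) ≤ 2 ^ k := by positivity
    have e1 : Ico u (u + ((m + 1 : ℕ) : ℤ) * 2 ^ k) = Ico u (u + m * 2 ^ k) ∪ Ico (u + m * 2 ^ k) (u + ((m + 1 : ℕ) : ℤ) * 2 ^ k) := by
      rw [Ico_union_Ico_eq_Ico]
      · have : 0 ≤ (m : ℤ) * 2 ^ k := by positivity
        linarith
      · push_cast; linarith
    have hd : Disjoint (Ico u (u + (m : ℤ) * 2 ^ k)) (Ico (u + (m : ℤ) * 2 ^ k) (u + ((m + 1 : ℕ) : ℤ) * 2 ^ k)) := by
      rw [disjoint_left]
      intro t ht ht'
      rw [mem_Ico] at ht ht'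
      linarith [ht.2, ht'.1]
    rw [e1, filter_union, card_union_of_disjoint (disjoint_filter_filter hd)]
    push_cast
    rw [ih]
    have e2 : (((Ico (u + (m : ℤ) * 2 ^ k) (u + ((m : ℤ) + 1) * 2 ^ k)).filter (fun t => surv 1 k st (t + c))).card : ℝ) =
        2 ^ k * q step (0, 0) k st := by
      rw [← count_surv (d := 1) (by norm_num) k st, ← sum_affine k (fun x => if surv 1 k st x then (1 : ℝ) else 0) (by
        intro x m
        simp only [surv_periodic (d := 1) (by norm_num) k st x m]) (a := 1) (by norm_num) (u + m * 2 ^ k + c)]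
      rw [card_filter]
      push_cast
      symm
      apply sum_bij' (fun (i : ℕ) _ => u + m * 2 ^ k + (i : ℤ)) (fun (t : ℤ) _ => (t - (u + m * 2 ^ k)).toNat)
      · intro i hi
        rw [mem_range] at hi
        rw [mem_Ico]
        have : (i : ℤ) < 2 ^ k := by exact_mod_cast hi
        constructor <;> linarith [Int.natCast_nonneg i]
      · intro t ht
        rw [mem_Ico] at ht
        rw [mem_range]
        have h3 : t - (u + m * 2 ^ k) < 2 ^ k := by linarith [ht.2]
        have h4 : 0 ≤ t - (u + m * 2 ^ k) := by linarith [ht.1]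
        zify
        rw [Int.toNat_of_nonneg h4]
        push_cast
        exact h3
      · intro i _
        simp
      · intro t ht
        rw [mem_Ico] at ht
        rw [Int.toNat_of_nonneg (by linarith [ht.1])]
        ring
      · intro i _
        have e3 : (1 : ℤ) * (i : ℤ) + (u + m * 2 ^ k + c) = u + m * 2 ^ k + i + c := by ring
        rw [e3]
    rw [e2]
    ring

open Classical in
theorem surv_Icc (k : ℕ) (st : ℕ × ℤ) (c u v : ℤ) (huv : u ≤ v) :
    (((Icc u v).filter (fun t => surv 1 k st (t + c))).card : ℝ) ≤ ((v - u : ℤ) + 2 ^ k : ℝ) * q step (0, 0) k st := by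
  have h2 : (0 : ℤ) < 2 ^ k := by positivity
  have h2R : (0 : ℝ) < 2 ^ k := by positivity
  set m : ℕ := ((v - u) / 2 ^ k).toNat + 1 with hm
  have hm' : (m : ℤ) = (v - u) / 2 ^ k + 1 := by
    rw [hm]; push_cast
    rw [Int.toNat_of_nonneg (Int.ediv_nonneg (by linarith) h2.le)]
  have h3 : v - u < m * 2 ^ k := by
    rw [hm']
    exact Int.lt_ediv_add_one_mul_self _ h2
  have h4 : ((m : ℤ) - 1) * 2 ^ k ≤ v - u := by
    rw [hm']
    have := Int.ediv_mul_le (v - u) h2.ne'
    linarith
  have h5 : (((Icc u v).filter (fun t => surv 1 k st (t + c))).card : ℝ) ≤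
      (((Ico u (u + m * 2 ^ k)).filter (fun t => surv 1 k st (t + c))).card : ℝ) := by
    have : ((Icc u v).filter (fun t => surv 1 k st (t + c))).card ≤ ((Ico u (u + m * 2 ^ k)).filter (fun t => surv 1 k st (t + c))).card := by
      apply card_le_card
      apply filter_subset_filter
      intro t ht
      rw [mem_Icc] at ht
      rw [mem_Ico]
      constructor <;> linarith [ht.1, ht.2]
    exact_mod_cast this
  refine h5.trans ?_
  rw [surv_int, ← mul_assoc]
  have hq : 0 ≤ q step (0, 0) k st := by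
    have h6 := surv_int k st c u 1
    push_cast at h6
    have h7 : 0 ≤ (1 : ℝ) * (2 ^ k * q step (0, 0) k st) := by rw [← h6]; positivity
    have h8 : 0 ≤ (2 : ℝ) ^ k * q step (0, 0) k st := by linarith
    exact (mul_nonneg_iff_of_pos_left h2R).1 h8
  apply mul_le_mul_of_nonneg_right _ hq
  have h9 : (((m : ℤ) - 1) * 2 ^ k : ℝ) ≤ ((v - u : ℤ) : ℝ) := by exact_mod_cast h4
  push_cast at h9 ⊢
  linarith

end Pool.Agent.W36.GS
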