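import Pool.Agent.W36.GS.S6

/-! Comparison of the number of the sifted points at which forms have values in given invariant sets with the number of all
such points. -/

set_option autoImplicit false

namespace Pool.Agent.W36.GS

open Finset Pool.Agent.W36.GK Pool.Agent.H499R2.CO

theorem q_nonneg' (k : ℕ) (st : ℕ × ℤ) : 0 ≤ q step (0, 0) k st := by
  classical
  have h2R : (0 : ℝ) < 2 ^ k := by positivity
  have h6 := surv_int k st 0 0 1
  push_cast at h6
  have h7 : 0 ≤ (1 : ℝ) * (2 ^ k * q step (0, 0) k st) := by rw [← h6]; positivity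
  have h8 : 0 ≤ (2 : ℝ) ^ k * q step (0, 0) k st := by linarith
  exact (mul_nonneg_iff_of_pos_left h2R).1 h8

open Classical in
/-- points at which the value of a form survives -/
theorem ub2 {D H X k : ℕ} {s : (Fin (D + 1) → ℤ) → ℝ} (hs : ∀ x, 0 ≤ s x) {C : ℝ} (hC0 : 0 ≤ C)
    (hC : ∀ y, ∑ h ∈ cube (D + 1) H, s (y + ((2 ^ k : ℕ) : ℤ) • h) ≤ C) {P P' : Fin (D + 1) → ℤ}
    (hP : ∀ j, P' j - P j + 2 ^ k * H ≤ X) {a : Fin (D + 1) → ℤ} (ha : a ≠ 0) (c : ℤ) (st : ℕ × ℤ) :
    (H : ℝ) ^ (D + 1) * ∑ x ∈ (box P P').filter (fun x => surv 1 k st (dot a x + c)), s x ≤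
      C * (((2 * (sz a * X) : ℤ) + 2 ^ k : ℝ) * q step (0, 0) k st * (X : ℝ) ^ D) := by
  have h2k : ((2 ^ k : ℕ) : ℤ) ≠ 0 := by positivity
  have hinj : Function.Injective (fun h : Fin (D + 1) → ℤ => ((2 ^ k : ℕ) : ℤ) • h) := by
    intro h h' hh
    ext j
    have h1 := congrFun hh j
    simp only [Pi.smul_apply, smul_eq_mul] at h1
    exact mul_left_cancel₀ h2k h1
  have h1 := avg_le hs ((cube (D + 1) H).image (fun h => ((2 ^ k : ℕ) : ℤ) • h)) ((box P P').filter (fun x => surv 1 k st (dot a x + c)))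
    ((box (fun j => P j - (2 ^ k : ℕ) * H) P').filter (fun x => surv 1 k st (dot a x + c))) (by
      intro x hx h' hh'
      obtain ⟨h, hh, rfl⟩ := mem_image.1 hh'
      rw [mem_filter] at hx
      rw [mem_filter]
      refine ⟨box_sub (m := 2 ^ k) hx.1 hh, ?_⟩
      rw [dot_sub', dot_smul']
      have e : dot a x - ((2 ^ k : ℕ) : ℤ) * dot a h + c = dot a x + c + (-dot a h) * 2 ^ k := by push_cast; ring
      rw [e, surv_periodic (d := 1) (by norm_num)]
      exact hx.2) (C := C) (by
      intro y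
      rw [sum_image (fun x _ x' _ h3 => hinj h3)]
      exact hC y)
  rw [card_image_of_injective _ hinj, card_cube] at h1
  push_cast at h1
  refine h1.trans ?_
  apply mul_le_mul_of_nonneg_left _ hC0
  have hX0 : (0 : ℤ) ≤ sz a * X := mul_nonneg (sz_nonneg a) (Int.natCast_nonneg X)
  have hq := q_nonneg' k st
  set B := box (fun j => P j - (2 ^ k : ℤ) * H) P' with hB
  rcases B.eq_empty_or_nonempty with hBe | ⟨y0, hy0⟩
  · rw [hBe]
    simp only [filter_empty, card_empty, Nat.cast_zero]
    have h3 : (0 : ℝ) ≤ ((2 * (sz a * X) : ℤ) : ℝ) := by exact_mod_cast (by linarith : (0 : ℤ) ≤ 2 * (sz a * X))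
    positivity
  have hside : ∀ j, P' j - (P j - (2 ^ k : ℤ) * H) ≤ X := fun j => by linarith [hP j]
  set Y : Finset ℤ := (Icc (dot a y0 - sz a * X) (dot a y0 + sz a * X)).filter (fun t => surv 1 k st (t + c)) with hY
  have h2 := fib (X := X) (P := fun j => P j - (2 ^ k : ℤ) * H) (P' := P') hside ha Y
  have h3 : (B.filter (fun x => surv 1 k st (dot a x + c))).card ≤ Y.card * X ^ D := by
    refine le_trans (card_le_card ?_) h2
    intro x hx
    rw [mem_filter] at hx
    rw [mem_filter, hY, mem_filter, mem_Icc]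
    refine ⟨hx.1, ?_, hx.2⟩
    have h4 : |dot a (x - y0)| ≤ sz a * X := by
      apply dot_abs
      intro j
      have a1 := mem_box.1 hx.1 j
      have a2 := mem_box.1 hy0 j
      have a3 := hside j
      rw [Pi.sub_apply, abs_le]
      constructor <;> linarith [a1.1, a1.2, a2.1, a2.2]
    rw [dot_sub'] at h4
    have h5 := abs_le.1 h4
    constructor <;> linarith [h5.1, h5.2]
  have h4 := surv_Icc k st c (dot a y0 - sz a * X) (dot a y0 + sz a * X) (by linarith)
  have e1 : dot a y0 + sz a * X - (dot a y0 - sz a * X) = 2 * (sz a * (X : ℤ)) := by ring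
  rw [e1] at h4
  have h5 : (((B.filter (fun x => surv 1 k st (dot a x + c))).card : ℕ) : ℝ) ≤ (Y.card : ℝ) * (X : ℝ) ^ D := by exact_mod_cast h3
  refine h5.trans ?_
  exact mul_le_mul_of_nonneg_right h4 (by positivity)

/-- membership in an invariant set and coalescence -/
theorem inv_iter {S : Set ℤ} (hS : ∀ x, x ∈ S ↔ Tz 1 x ∈ S) : ∀ (t : ℕ) (x : ℤ), x ∈ S ↔ (Tz 1)^[t] x ∈ S := by
  intro t
  induction t with
  | zero => intro x; rfl
  | succ t ih => intro x; rw [Function.iterate_succ_apply, ← ih, ← hS]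

theorem surv_of {S : Set ℤ} (hS : ∀ x, x ∈ S ↔ Tz 1 x ∈ S) {k : ℕ} {x m : ℤ} (h : ¬ (x ∈ S ↔ x - m ∈ S)) : surv 1 k (0, -m) x := by
  by_contra hcon
  obtain ⟨t, -, ht⟩ := coal (d := 1) (by norm_num) k 0 (-m) x hcon
  have e : (3 : ℤ) ^ 0 * x + 1 * (-m) = x - m := by ring
  rw [e] at ht
  apply h
  rw [inv_iter hS t x, inv_iter hS t (x - m), ht]

open Classical in
/-- the points of a box at which the forms have values in given sets and intervals -/
noncomputable def pts {D r : ℕ} (Λ : Fin r → Fin D → ℤ) (c s : Fin r → ℤ) (M N : Fin r → ℕ) (P P' : Fin D → ℤ) (S : Fin r → Set ℤ) :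
    Finset (Fin D → ℤ) :=
  (box P P').filter (fun x => ∀ i, (dot (Λ i) x + c i) ∈ S i ∧ (M i : ℤ) < s i * (dot (Λ i) x + c i) ∧ s i * (dot (Λ i) x + c i) ≤ N i)

open Classical in
/-- the exceptional points of a shift -/
noncomputable def bad {D r : ℕ} (Λ : Fin r → Fin D → ℤ) (c s : Fin r → ℤ) (M N : Fin r → ℕ) (P P' : Fin D → ℤ) (H k : ℕ) (A : ℤ)
    (h : Fin D → ℤ) : Finset (Fin D → ℤ) :=
  (univ.biUnion fun j : Fin D => (box P (fun j => P' j + H)).filter (fun x => P j + 1 ≤ dot (Pi.single j 1) x ∧ dot (Pi.single j 1) x ≤ P j + H)) ∪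
  (univ.biUnion fun j : Fin D => (box P (fun j => P' j + H)).filter (fun x => P' j + 1 ≤ dot (Pi.single j 1) x ∧ dot (Pi.single j 1) x ≤ P' j + H)) ∪
  (univ.biUnion fun i : Fin r => (box P (fun j => P' j + H)).filter (fun x => M i - A * H - s i * c i ≤ dot (s i • Λ i) x ∧
    dot (s i • Λ i) x ≤ M i + A * H - s i * c i)) ∪
  (univ.biUnion fun i : Fin r => (box P (fun j => P' j + H)).filter (fun x => N i - A * H - s i * c i ≤ dot (s i • Λ i) x ∧
    dot (s i • Λ i) x ≤ N i + A * H - s i * c i)) ∪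
  (univ.biUnion fun i : Fin r => (box P (fun j => P' j + H)).filter (fun x => surv 1 k (0, -dot (Λ i) h) (dot (Λ i) x + c i)))

theorem dot_single {D : ℕ} (j : Fin D) (x : Fin D → ℤ) : dot (Pi.single j 1) x = x j := by
  unfold dot
  rw [sum_eq_single j]
  · simp
  · intro b _ hb
    rw [Pi.single_eq_of_ne hb, zero_mul]
  · intro h; exact absurd (mem_univ j) h

theorem dot_smul_left {D : ℕ} (m : ℤ) (a x : Fin D → ℤ) : dot (m • a) x = m * dot a x := by
  unfold dot
  rw [mul_sum]
  apply sum_congr rfl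
  intro j _
  simp only [Pi.smul_apply, smul_eq_mul]
  ring

theorem bad_of {D r : ℕ} {Λ : Fin r → Fin D → ℤ} {c s : Fin r → ℤ} (hs : ∀ i, s i = 1 ∨ s i = -1) {M N : Fin r → ℕ} (hMN : ∀ i, M i ≤ N i)
    {P P' : Fin D → ℤ} {S : Fin r → Set ℤ} (hS : ∀ i x, x ∈ S i ↔ Tz 1 x ∈ S i) {H k : ℕ} {A : ℤ} (hA : ∀ i, sz (Λ i) ≤ A)
    {h : Fin D → ℤ} (hh : h ∈ cube D H) (x : Fin D → ℤ) (hx : ¬ (x ∈ pts Λ c s M N P P' S ↔ x - h ∈ pts Λ c s M N P P' S)) :
    x ∈ bad Λ c s M N P P' H k A h := by
  classical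
  have hc := mem_cube.1 hh
  have hbox : x ∈ box P (fun j => P' j + H) := by
    rw [mem_box]
    by_cases h1 : x ∈ pts Λ c s M N P P' S
    · have h2 := mem_box.1 (mem_filter.1 h1).1
      intro j
      have := h2 j
      constructor <;> linarith [this.1, this.2, Int.natCast_nonneg H]
    · have h1' : x - h ∈ pts Λ c s M N P P' S := by
        by_contra h3
        exact hx ⟨fun h4 => absurd h4 h1, fun h4 => absurd h4 h3⟩
      have h2 := mem_box.1 (mem_filter.1 h1').1
      intro j
      have h3 := h2 j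
      simp only [Pi.sub_apply] at h3
      have h4 := hc j
      constructor <;> linarith [h3.1, h3.2, h4.1, h4.2]
  unfold bad
  simp only [mem_union, mem_biUnion, mem_univ, true_and, mem_filter, dot_single]
  by_cases hb1 : x ∈ box P P'
  · by_cases hb2 : x - h ∈ box P P'
    · -- both in the box
      have h5 : ∃ i, ¬ (((dot (Λ i) x + c i) ∈ S i ∧ (M i : ℤ) < s i * (dot (Λ i) x + c i) ∧ s i * (dot (Λ i) x + c i) ≤ N i) ↔
          ((dot (Λ i) (x - h) + c i) ∈ S i ∧ (M i : ℤ) < s i * (dot (Λ i) (x - h) + c i) ∧ s i * (dot (Λ i) (x - h) + c i) ≤ N i)) := by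
        by_contra h6
        push Not at h6
        apply hx
        unfold pts
        rw [mem_filter, mem_filter]
        simp only [hb1, hb2, true_and]
        exact forall_congr' h6
      obtain ⟨i, h6⟩ := h5
      have h7 : |dot (Λ i) h| ≤ A * H := (dot_cube (Λ i) hh).trans (mul_le_mul_of_nonneg_right (hA i) (Int.natCast_nonneg H))
      have h8 := abs_le.1 h7
      rw [dot_sub'] at h6
      set m := dot (Λ i) h with hm
      set w := dot (Λ i) x + c i with hw
      have e1 : dot (Λ i) x - m + c i = w - m := by rw [hw]; ring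
      rw [e1] at h6
      have e2 : ∀ z : ℤ, (z - s i * c i ≤ dot (s i • Λ i) x ↔ z ≤ s i * w) := by
        intro z; rw [dot_smul_left, hw, mul_add]; constructor <;> intro h <;> linarith
      have e3 : ∀ z : ℤ, (dot (s i • Λ i) x ≤ z - s i * c i ↔ s i * w ≤ z) := by
        intro z; rw [dot_smul_left, hw, mul_add]; constructor <;> intro h <;> linarith
      by_cases h9 : ((M i : ℤ) < s i * w ∧ s i * w ≤ N i) ↔ ((M i : ℤ) < s i * (w - m) ∧ s i * (w - m) ≤ N i)
      · -- the values are in the same window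
        have h10 : ¬ (w ∈ S i ↔ w - m ∈ S i) := by
          intro h11
          apply h6
          constructor
          · rintro ⟨a1, a2⟩; exact ⟨h11.1 a1, h9.1 a2⟩
          · rintro ⟨a1, a2⟩; exact ⟨h11.2 a1, h9.2 a2⟩
        right
        exact ⟨i, hbox, surv_of (hS i) h10⟩
      · have h12 := hMN i
        have h13 : (M i : ℤ) ≤ N i := by exact_mod_cast h12
        have h14 : |s i * w - s i * (w - m)| ≤ A * H := by
          have e4 : s i * w - s i * (w - m) = s i * m := by ring
          rw [e4, abs_mul]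
          have : |s i| = 1 := by rcases hs i with h | h <;> rw [h] <;> simp
          rw [this, one_mul]; exact h7
        have h15 := abs_le.1 h14
        set w1 := s i * w with hw1
        set w2 := s i * (w - m) with hw2
        have h16 : ((M i : ℤ) - A * H ≤ w1 ∧ w1 ≤ M i + A * H) ∨ ((N i : ℤ) - A * H ≤ w1 ∧ w1 ≤ N i + A * H) := by
          by_contra h17
          apply h9
          push Not at h17
          obtain ⟨b1, b2⟩ := h17
          rcases lt_or_ge w1 ((M i : ℤ) - A * H) with g | g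
          · constructor
            · rintro ⟨c1, c2⟩; exfalso; linarith [h15.1, h15.2]
            · rintro ⟨c1, c2⟩; exfalso; linarith [h15.1, h15.2]
          · have g2 := b1 g
            rcases lt_or_ge w1 ((N i : ℤ) - A * H) with g3 | g3
            · constructor
              · rintro ⟨c1, c2⟩; constructor <;> linarith [h15.1, h15.2]
              · rintro ⟨c1, c2⟩; constructor <;> linarith [h15.1, h15.2]
            · have g4 := b2 g3
              constructor
              · rintro ⟨c1, c2⟩; exfalso; linarith [h15.1, h15.2]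
              · rintro ⟨c1, c2⟩; exfalso; linarith [h15.1, h15.2]
        rcases h16 with ⟨a1, a2⟩ | ⟨a1, a2⟩
        · left; left; right
          exact ⟨i, hbox, (e2 _).2 a1, (e3 _).2 a2⟩
        · left; right
          exact ⟨i, hbox, (e2 _).2 a1, (e3 _).2 a2⟩
    · -- `x` in the box, `x - h` not
      rw [mem_box] at hb2
      push Not at hb2
      obtain ⟨j, hj⟩ := hb2
      have h2 := mem_box.1 hb1 j
      have h3 := hc j
      simp only [Pi.sub_apply] at hj
      left; left; left; left
      refine ⟨j, hbox, by linarith [h2.1], ?_⟩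
      by_contra h4
      push Not at h4
      have h5 := hj (by linarith [h3.2])
      linarith [h2.2, h3.1]
  · have hb2 : x - h ∈ box P P' := by
      by_contra h3
      apply hx
      unfold pts
      rw [mem_filter, mem_filter]
      exact ⟨fun h4 => absurd h4.1 hb1, fun h4 => absurd h4.1 h3⟩
    rw [mem_box] at hb1
    push Not at hb1
    obtain ⟨j, hj⟩ := hb1
    have h2 := mem_box.1 hb2 j
    simp only [Pi.sub_apply] at h2
    have h3 := hc j
    have h4 := hj (by linarith [h2.1, h3.1])
    left; left; left; right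
    exact ⟨j, hbox, by linarith, by linarith [h2.2, h3.2]⟩

end Pool.Agent.W36.GS
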