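import Pool.Agent.W36.GS.S8

/-! The parameters of the comparison theorem. -/

set_option autoImplicit false

namespace Pool.Agent.W36.GS

open Finset Pool.Agent.W36.GK Pool.Agent.H499R2.CO

theorem VV_univ {D : ℕ} {Q : Finset ℕ} (hQ : ∀ p ∈ Q, p.Prime) {Ω : (p : ℕ) → Set (Fin D → ZMod p)} (h0 : VV Q Ω = 0) (x : Fin D → ℤ) :
    sg Q Ω x = 0 := by
  obtain ⟨p, hp, hp0⟩ := prod_eq_zero_iff.1 h0
  have hpp := hQ p hp
  have hNe : NeZero p := ⟨hpp.ne_zero⟩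
  have hpR : (0 : ℝ) < p := by exact_mod_cast hpp.pos
  have h1 : (Ω p).ncard = p ^ D := by
    have h2 : ((Ω p).ncard : ℝ) / (p : ℝ) ^ D = 1 := by unfold dn at hp0; linarith
    rw [div_eq_one_iff_eq (by positivity)] at h2
    exact_mod_cast h2
  have h3 : Ω p = Set.univ := by
    apply Set.eq_of_subset_of_ncard_le (Set.subset_univ _) _ Set.finite_univ
    rw [h1, Set.ncard_univ, Nat.card_eq_fintype_card, Fintype.card_fun, ZMod.card, Fintype.card_fin]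
  unfold sg
  rw [if_neg]
  intro h4
  exact h4 p hp (by rw [h3]; trivial)

theorem VV_erase {D : ℕ} {Q : Finset ℕ} (hQ : ∀ p ∈ Q, p.Prime) {Ω : (p : ℕ) → Set (Fin D → ZMod p)} (h0 : VV Q Ω ≠ 0) :
    VV (Q.erase 2) Ω ≤ 2 ^ D * VV Q Ω := by
  have hn : 0 ≤ VV (Q.erase 2) Ω := VV_nonneg (fun p hp => hQ p (mem_of_mem_erase hp)) Ω
  by_cases h2 : 2 ∈ Q
  · have e : VV Q Ω = (1 - dn Ω 2) * VV (Q.erase 2) Ω := by
      unfold VV; rw [mul_prod_erase Q (fun p => 1 - dn Ω p) h2]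
    have h3 : 1 - dn Ω 2 ≠ 0 := fun h => h0 (by rw [e, h, zero_mul])
    have h4 : (Ω 2).ncard ≠ 2 ^ D := by
      intro h
      apply h3
      unfold dn
      rw [h]; push_cast
      rw [div_self (by positivity)]; ring
    have h5 : (Ω 2).ncard + 1 ≤ 2 ^ D := by
      have := ncard_le Nat.prime_two (Ω 2); omega
    have h6 : ((Ω 2).ncard : ℝ) + 1 ≤ (2 : ℝ) ^ D := by exact_mod_cast h5
    have h7 : 1 ≤ 2 ^ D * (1 - dn Ω 2) := by
      unfold dn
      push_cast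
      have : (2 : ℝ) ^ D * (1 - ((Ω 2).ncard : ℝ) / 2 ^ D) = 2 ^ D - (Ω 2).ncard := by field_simp
      rw [this]; linarith
    rw [e, ← mul_assoc]
    exact le_mul_of_one_le_left hn h7
  · rw [erase_eq_of_notMem h2] at hn ⊢
    exact le_mul_of_one_le_left hn (one_le_pow₀ (by norm_num))

theorem sg_erase {D : ℕ} (Q : Finset ℕ) (Ω : (p : ℕ) → Set (Fin D → ZMod p)) (x : Fin D → ℤ) : sg Q Ω x ≤ sg (Q.erase 2) Ω x := by
  unfold sg
  split_ifs with a b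
  · exact le_rfl
  · exact absurd (fun p hp => a p (mem_of_mem_erase hp)) b
  · norm_num
  · exact le_rfl

theorem pts_card {D r N : ℕ} (Λ : Fin r → Fin D → ℤ) (c s : Fin r → ℤ) (M N' : Fin r → ℕ) {P P' : Fin D → ℤ} (hP : ∀ j, P' j - P j ≤ N)
    (S : Fin r → Set ℤ) : (pts Λ c s M N' P P' S).card ≤ N ^ D := by
  classical
  calc (pts Λ c s M N' P P' S).card ≤ (box P P').card := card_le_card (filter_subset _ _)
    _ ≤ N ^ D := by
      unfold Pool.Agent.W36.GK.box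
      rw [Fintype.card_piFinset]
      calc ∏ j : Fin D, (Ioc (P j) (P' j)).card ≤ ∏ _j : Fin D, N := prod_le_prod' fun j _ => card_I_le (hP j)
        _ = N ^ D := by rw [prod_const, card_univ, Fintype.card_fin]

/-- numbers -/
theorem nums {D r A N H k : ℕ} {ε c2 q0 : ℝ} (hε : 0 < ε) (hN : 1 ≤ N) (hc2 : 0 < c2) (hA : 1 ≤ A)
    (hH : (H : ℝ) * (240 * (r + 1) * (D + 1) * A * 2 ^ D) ≤ ε * N) (hH1 : 1 ≤ H) (hk : 2 ^ k ≤ N)
    (hq0 : 0 ≤ q0) (hq : q0 * (60 * c2 * (r + 1) * A * 2 ^ D) ≤ ε) {C : ℝ} (hC : C ≤ (N : ℝ) ^ (D + 1)) {ε1 : ℝ} (hε10 : 0 ≤ ε1) (hε1 : ε1 ≤ ε / 12) :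
    ε1 * C + 12 * (D + 1) * H * ((2 * N : ℕ) : ℝ) ^ D + 4 * r * (4 * A * H + 1) * ((2 * N : ℕ) : ℝ) ^ D +
        c2 * r * (2 * A * ((2 * N : ℕ) : ℝ) + 2 ^ k) * q0 * ((2 * N : ℕ) : ℝ) ^ D ≤ ε / 3 * (N : ℝ) ^ (D + 1) := by
  have hNR : (1 : ℝ) ≤ N := by exact_mod_cast hN
  have hAR : (1 : ℝ) ≤ A := by exact_mod_cast hA
  have hHR : (1 : ℝ) ≤ H := by exact_mod_cast hH1
  have hkR : (2 : ℝ) ^ k ≤ N := by exact_mod_cast hk
  have hrR : (0 : ℝ) ≤ r := Nat.cast_nonneg r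
  have hDR : (0 : ℝ) ≤ D := Nat.cast_nonneg D
  push_cast
  rw [mul_pow]
  have hp : (0 : ℝ) < (N : ℝ) ^ D := by positivity
  have h2D : (1 : ℝ) ≤ 2 ^ D := one_le_pow₀ (by norm_num)
  have t1 : ε1 * C ≤ ε / 12 * (N : ℝ) ^ (D + 1) := by
    calc ε1 * C ≤ ε1 * (N : ℝ) ^ (D + 1) := mul_le_mul_of_nonneg_left hC hε10
      _ ≤ _ := mul_le_mul_of_nonneg_right hε1 (by positivity)
  have t2 : 12 * (D + 1) * H * (2 ^ D * (N : ℝ) ^ D) ≤ ε / 12 * (N : ℝ) ^ (D + 1) := by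
    have h1 : 12 * (12 * ((D : ℝ) + 1) * H * 2 ^ D) ≤ ε * N := by
      refine le_trans ?_ hH
      have : 144 * (((D : ℝ) + 1) * H * 2 ^ D) ≤ 240 * ((r + 1) * A) * ((D + 1) * H * 2 ^ D) := by
        apply mul_le_mul_of_nonneg_right _ (by positivity)
        have : 1 ≤ ((r : ℝ) + 1) * A := by nlinarith
        linarith
      linarith
    calc 12 * (D + 1) * H * (2 ^ D * (N : ℝ) ^ D) = (12 * (12 * ((D : ℝ) + 1) * H * 2 ^ D)) / 12 * (N : ℝ) ^ D := by ring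
      _ ≤ ε * N / 12 * (N : ℝ) ^ D := by
        apply mul_le_mul_of_nonneg_right _ hp.le
        linarith
      _ = _ := by rw [pow_succ]; ring
  have t3 : 4 * r * (4 * A * H + 1) * (2 ^ D * (N : ℝ) ^ D) ≤ ε / 12 * (N : ℝ) ^ (D + 1) := by
    have h0 : (4 * A * H + 1 : ℝ) ≤ 5 * (A * H) := by nlinarith
    have h1 : 12 * (4 * (r : ℝ) * (4 * A * H + 1) * 2 ^ D) ≤ ε * N := by
      refine le_trans ?_ hH
      calc 12 * (4 * (r : ℝ) * (4 * A * H + 1) * 2 ^ D) ≤ 12 * (4 * (r : ℝ) * (5 * (A * H)) * 2 ^ D) := by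
            apply mul_le_mul_of_nonneg_left _ (by norm_num)
            apply mul_le_mul_of_nonneg_right _ (by positivity)
            exact mul_le_mul_of_nonneg_left h0 (by positivity)
        _ = 240 * (r * 1) * (A * H * 2 ^ D) := by ring
        _ ≤ 240 * ((r + 1) * (D + 1)) * (A * H * 2 ^ D) := by
            apply mul_le_mul_of_nonneg_right _ (by positivity)
            nlinarith
        _ = _ := by ring
    calc 4 * r * (4 * A * H + 1) * (2 ^ D * (N : ℝ) ^ D) = (12 * (4 * (r : ℝ) * (4 * A * H + 1) * 2 ^ D)) / 12 * (N : ℝ) ^ D := by ring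
      _ ≤ ε * N / 12 * (N : ℝ) ^ D := by
        apply mul_le_mul_of_nonneg_right _ hp.le
        linarith
      _ = _ := by rw [pow_succ]; ring
  have t4 : c2 * r * (2 * A * (2 * N) + 2 ^ k) * q0 * (2 ^ D * (N : ℝ) ^ D) ≤ ε / 12 * (N : ℝ) ^ (D + 1) := by
    have h0 : (2 * A * (2 * N) + 2 ^ k : ℝ) ≤ 5 * A * N := by nlinarith
    calc c2 * r * (2 * A * (2 * N) + 2 ^ k) * q0 * (2 ^ D * (N : ℝ) ^ D) ≤ c2 * (r + 1) * (5 * A * N) * q0 * (2 ^ D * (N : ℝ) ^ D) := by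
          apply mul_le_mul_of_nonneg_right _ (by positivity)
          apply mul_le_mul_of_nonneg_right _ hq0
          apply mul_le_mul _ h0 (by positivity) (by positivity)
          apply mul_le_mul_of_nonneg_left _ hc2.le
          linarith
      _ = (q0 * (60 * c2 * (r + 1) * A * 2 ^ D)) / 12 * (N : ℝ) ^ (D + 1) := by rw [pow_succ]; ring
      _ ≤ ε / 12 * (N : ℝ) ^ (D + 1) := by
          apply mul_le_mul_of_nonneg_right _ (by positivity)
          linarith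
  linarith

end Pool.Agent.W36.GS
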